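import Mathlib

/-!
# Normal forms: integer arithmetic
-/

set_option autoImplicit false

namespace Pool.Agent.J6H66.SEP

/-- The normal form condition: `s ≤ t` are the two slopes, `a, b, c` the flows on the ear. -/
def NF (s t a b c : ℤ) : Prop :=
  (s ≤ 1 ∧ -1 ≤ t ∧ (a ≤ 0 ∨ b ≤ 0) ∧ (a ≤ 0 ∨ c ≤ 0) ∧ (b ≤ 0 ∨ c ≤ 0) ∧ (0 ≤ a ∨ 0 ≤ b) ∧
    (0 ≤ a ∨ 0 ≤ c) ∧ (0 ≤ b ∨ 0 ≤ c)) ∨
  (s ≤ 1 ∧ 2 ≤ t ∧ ((0 < a ∧ 0 < b ∧ c ≤ 0) ∨ (0 < a ∧ b ≤ 0 ∧ 0 < c) ∨ (a ≤ 0 ∧ 0 < b ∧ 0 < c))) ∨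
  (2 ≤ s ∧ 0 ≤ a ∧ 0 ≤ b ∧ 0 ≤ c ∧ (a = 0 ∨ b = 0 ∨ c = 0)) ∨
  (s ≤ -2 ∧ -1 ≤ t ∧ ((a < 0 ∧ b < 0 ∧ 0 ≤ c) ∨ (a < 0 ∧ 0 ≤ b ∧ c < 0) ∨ (0 ≤ a ∧ b < 0 ∧ c < 0))) ∨
  (t ≤ -2 ∧ a ≤ 0 ∧ b ≤ 0 ∧ c ≤ 0 ∧ (a = 0 ∨ b = 0 ∨ c = 0))

theorem NF_sign (s t a b c : ℤ) : NF s t a b c ↔ NF s t a.sign b.sign c.sign := by
  have h : ∀ x : ℤ, (x < 0 ∧ x.sign = -1) ∨ (x = 0 ∧ x.sign = 0) ∨ (0 < x ∧ x.sign = 1) := by
    intro x
    rcases lt_trichotomy x 0 with h | h | h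
    · left; exact ⟨h, Int.sign_eq_neg_one_iff_neg.2 h⟩
    · right; left; exact ⟨h, by rw [h]; rfl⟩
    · right; right; exact ⟨h, Int.sign_eq_one_iff_pos.2 h⟩
  have e1 : ∀ x : ℤ, x.sign ≤ 0 ↔ x ≤ 0 := fun x => by have := h x; omega
  have e2 : ∀ x : ℤ, 0 ≤ x.sign ↔ 0 ≤ x := fun x => by have := h x; omega
  have e3 : ∀ x : ℤ, 0 < x.sign ↔ 0 < x := fun x => by have := h x; omega
  have e4 : ∀ x : ℤ, x.sign < 0 ↔ x < 0 := fun x => by have := h x; omega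
  have e5 : ∀ x : ℤ, x.sign = 0 ↔ x = 0 := fun x => by have := h x; omega
  unfold NF
  simp only [e1, e2, e3, e4, e5]

/-- uniqueness of the normal form in an orbit -/
theorem NF_unique {s t s' t' a b c a' b' c' k : ℤ} (hk : 0 < k) (hst : s ≤ t) (hst' : s' ≤ t')
    (h : t' ≤ s) (ha : a' = a + k) (hb : b' = b + k) (hc : c' = c + k)
    (h1 : NF s t a b c) (h2 : NF s' t' a' b' c') : False := by
  unfold NF at h1 h2
  rcases h1 with h1 | h1 | h1 | h1 | h1 <;>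
  rcases h2 with h2 | h2 | h2 | h2 | h2 <;>
  omega

/-- existence, first part: the slopes at the median are not too large -/
theorem NF_exists {τ : ℤ → ℤ} (hτ : ∀ k, τ (k + 1) ≤ τ k) (h1 : ∀ k, ∃ j, k < j ∧ τ j ≤ 1)
    (h2 : ∀ k, ∃ j, j < k ∧ -1 ≤ τ j) (a b c : ℤ) :
    ∃ k, NF (τ (k + 1)) (τ k) (a + k) (b + k) (c + k) := by
  have anti : ∀ j k, j ≤ k → τ k ≤ τ j := by
    intro j k hjk
    obtain ⟨n, hn⟩ : ∃ n : ℕ, k = j + n := ⟨(k - j).toNat, by omega⟩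
    subst hn
    clear hjk
    induction n with
    | zero => simp
    | succ n ih =>
      have := hτ (j + n)
      push_cast
      rw [← add_assoc]
      omega
  -- the median
  obtain ⟨m, hm⟩ : ∃ m : ℤ, (a + m ≤ 0 ∨ b + m ≤ 0) ∧ (a + m ≤ 0 ∨ c + m ≤ 0) ∧
      (b + m ≤ 0 ∨ c + m ≤ 0) ∧ (0 ≤ a + m ∨ 0 ≤ b + m) ∧
      (0 ≤ a + m ∨ 0 ≤ c + m) ∧ (0 ≤ b + m ∨ 0 ≤ c + m) := by
    refine ⟨- max (min a b) (min (max a b) c), ?_⟩
    omega
  by_cases hs : 2 ≤ τ (m + 1)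
  · -- move to the right
    obtain ⟨k, ⟨hk1, hk2⟩, hk3⟩ := Int.exists_least_of_bdd (P := fun k => m < k ∧ τ (k + 1) ≤ 1)
      ⟨m, fun z hz => hz.1.le⟩ (by
        obtain ⟨j, hj, hj2⟩ := h1 (m + 1)
        refine ⟨j - 1, by omega, ?_⟩
        rwa [sub_add_cancel])
    have hk4 : 2 ≤ τ k := by
      by_contra hlt
      by_cases hmk : m < k - 1
      · have := hk3 (k - 1) ⟨hmk, by rw [sub_add_cancel]; omega⟩
        omega
      · have : k = m + 1 := by omega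
        rw [this] at hlt
        omega
    by_cases hmin : 0 < a + k ∧ 0 < b + k ∧ 0 < c + k
    · refine ⟨- min a (min b c), ?_⟩
      have := anti (- min a (min b c) + 1) k (by omega)
      right; right; left
      omega
    · refine ⟨k, ?_⟩
      right; left
      omega
  · by_cases ht : τ m ≤ -2
    · obtain ⟨k, ⟨hk1, hk2⟩, hk3⟩ := Int.exists_greatest_of_bdd (P := fun k => k < m ∧ -1 ≤ τ k)
        ⟨m, fun z hz => hz.1.le⟩ (h2 m)
      have hk4 : τ (k + 1) ≤ -2 := by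
        by_contra hlt
        by_cases hmk : k + 1 < m
        · have := hk3 (k + 1) ⟨hmk, by omega⟩
          omega
        · have : k + 1 = m := by omega
          rw [this] at hlt
          omega
      by_cases hmax : a + k < 0 ∧ b + k < 0 ∧ c + k < 0
      · refine ⟨- max a (max b c), ?_⟩
        have := anti (k + 1) (- max a (max b c)) (by omega)
        right; right; right; right
        omega
      · refine ⟨k, ?_⟩
        right; right; right; left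
        omega
    · refine ⟨m, ?_⟩
      left
      omega

/-- lower end of the allowed slopes on an edge with flow `a` -/
def lo (a : ℤ) : ℤ := if 0 < a then 1 else -1

/-- upper end of the allowed slopes on an edge with flow `a` -/
def hi (a : ℤ) : ℤ := if a < 0 then -1 else 1

theorem slope_split {a b c δ : ℤ} (h1 : lo a + lo b + lo c ≤ δ) (h2 : δ ≤ hi a + hi b + hi c) :
    ∃ x y z : ℤ, x + y + z = δ ∧ (lo a ≤ x ∧ x ≤ hi a) ∧ (lo b ≤ y ∧ y ≤ hi b) ∧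
      (lo c ≤ z ∧ z ≤ hi c) := by
  have ha : lo a ≤ hi a := by unfold lo hi; split_ifs <;> omega
  have hb : lo b ≤ hi b := by unfold lo hi; split_ifs <;> omega
  have hc : lo c ≤ hi c := by unfold lo hi; split_ifs <;> omega
  refine ⟨max (lo a) (min (hi a) (δ - lo b - lo c)),
    max (lo b) (min (hi b) (δ - max (lo a) (min (hi a) (δ - lo b - lo c)) - lo c)),
    δ - max (lo a) (min (hi a) (δ - lo b - lo c)) -
      max (lo b) (min (hi b) (δ - max (lo a) (min (hi a) (δ - lo b - lo c)) - lo c)), ?_⟩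
  omega

theorem slope_mul {a x : ℤ} (h : lo a ≤ x ∧ x ≤ hi a) : a * x = |a| ∧ -1 ≤ x ∧ x ≤ 1 := by
  unfold lo hi at h
  rcases lt_trichotomy a 0 with h1 | h1 | h1
  · rw [if_neg (by omega), if_pos h1] at h
    have : x = -1 := by omega
    subst this
    rw [abs_of_neg h1]
    omega
  · subst h1
    rw [if_neg (by omega), if_neg (by omega)] at h
    simp
    exact h
  · rw [if_pos h1, if_neg (by omega)] at h
    have : x = 1 := by omega
    subst this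
    rw [abs_of_pos h1]
    omega

/-- a common slope exists in normal form -/
theorem NF_slope {s t a b c : ℤ} (hst : s ≤ t) (hs : s ≤ 3) (ht : -3 ≤ t) (h : NF s t a b c) :
    ∃ δ, s ≤ δ ∧ δ ≤ t ∧ lo a + lo b + lo c ≤ δ ∧ δ ≤ hi a + hi b + hi c := by
  refine ⟨max s (lo a + lo b + lo c), ?_⟩
  have : s ≤ hi a + hi b + hi c ∧ lo a + lo b + lo c ≤ t ∧
      lo a + lo b + lo c ≤ hi a + hi b + hi c := by
    unfold NF at h
    unfold lo hi
    rcases h with h | h | h | h | h <;> split_ifs <;> omega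
  omega

end Pool.Agent.J6H66.SEP
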