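import Mathlib

/-!
# Generating functions of level sets
-/

set_option autoImplicit false
open Finset

namespace Pool.Agent.J6H66.SEP

variable {α β : Type}

/-- generating function of the points of `S` by the value of `ν` -/
noncomputable def gfs (ν : α → ℤ) (S : Set α) : PowerSeries ℤ :=
  PowerSeries.mk fun m : ℕ => (Set.ncard {x | x ∈ S ∧ ν x = m} : ℤ)

/-- locally finite -/
def LFs (ν : α → ℤ) (S : Set α) : Prop :=
  ∀ m : ℕ, {x | x ∈ S ∧ ν x = m}.Finite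

theorem LFs.mono {ν : α → ℤ} {S T : Set α} (h : LFs ν S) (hT : T ⊆ S) :
    LFs ν T := fun m => (h m).subset (fun _ hx => ⟨hT hx.1, hx.2⟩)

theorem coeff_gfs (ν : α → ℤ) (S : Set α) (m : ℕ) :
    PowerSeries.coeff m (gfs ν S) = (Set.ncard {x | x ∈ S ∧ ν x = m} : ℤ) :=
  PowerSeries.coeff_mk _ _

theorem gfs_union {ν : α → ℤ} {S T : Set α} (hS : LFs ν S) (hT : LFs ν T)
    (hd : Disjoint S T) : gfs ν (S ∪ T) = gfs ν S + gfs ν T := by
  ext m
  rw [map_add, coeff_gfs, coeff_gfs, coeff_gfs]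
  have h1 : {x | x ∈ S ∪ T ∧ ν x = m} = {x | x ∈ S ∧ ν x = m} ∪ {x | x ∈ T ∧ ν x = m} := by
    ext x
    constructor
    · rintro ⟨h1 | h1, h2⟩
      · exact Or.inl ⟨h1, h2⟩
      · exact Or.inr ⟨h1, h2⟩
    · rintro (⟨h1, h2⟩ | ⟨h1, h2⟩)
      · exact ⟨Or.inl h1, h2⟩
      · exact ⟨Or.inr h1, h2⟩
  rw [h1, Set.ncard_union_eq _ (hS m) (hT m)]
  · push_cast; rfl
  · rw [Set.disjoint_left] at hd ⊢
    intro x hx hx'
    exact hd hx.1 hx'.1

theorem gfs_congr_set {ν : α → ℤ} {S T : Set α} (h : ∀ x, x ∈ S ↔ x ∈ T) :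
    gfs ν S = gfs ν T := by
  rw [show S = T from Set.ext h]

theorem gfs_empty (ν : α → ℤ) : gfs ν (∅ : Set α) = 0 := by
  ext m
  rw [coeff_gfs, map_zero]
  have h1 : {x | x ∈ (∅ : Set α) ∧ ν x = m} = ∅ := by
    ext x
    constructor
    · rintro ⟨h1, _⟩
      exact h1
    · intro h
      exact absurd h (Set.notMem_empty x)
  rw [h1, Set.ncard_empty]
  rfl

theorem gfs_biUnion {ι : Type} [DecidableEq ι] {ν : α → ℤ} (I : Finset ι)
    (P : ι → Set α) {S : Set α} (hLF : LFs ν S)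
    (hS : ∀ x, x ∈ S ↔ ∃ i ∈ I, x ∈ P i)
    (hd : ∀ i ∈ I, ∀ j ∈ I, ∀ x, x ∈ P i → x ∈ P j → i = j) :
    gfs ν S = ∑ i ∈ I, gfs ν (P i) := by
  induction I using Finset.induction_on generalizing S with
  | empty =>
    rw [Finset.sum_empty]
    have : S = ∅ := by
      ext x
      rw [hS]
      simp
    rw [this, gfs_empty]
  | insert a I ha ih =>
    rw [Finset.sum_insert ha]
    have h1 : S = P a ∪ {x | ∃ i ∈ I, x ∈ P i} := by
      ext x
      rw [hS]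
      constructor
      · rintro ⟨i, hi, hx⟩
        rcases Finset.mem_insert.mp hi with rfl | hi
        · exact Or.inl hx
        · exact Or.inr ⟨i, hi, hx⟩
      · rintro (hx | ⟨i, hi, hx⟩)
        · exact ⟨a, Finset.mem_insert_self _ _, hx⟩
        · exact ⟨i, Finset.mem_insert_of_mem hi, hx⟩
    have h2 : LFs ν (P a) := hLF.mono (by rw [h1]; exact Set.subset_union_left)
    have h3 : LFs ν {x | ∃ i ∈ I, x ∈ P i} := hLF.mono (by rw [h1]; exact Set.subset_union_right)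
    rw [h1, gfs_union h2 h3]
    · rw [ih h3 (fun x => Iff.rfl) (fun i hi j hj => hd i (Finset.mem_insert_of_mem hi) j
        (Finset.mem_insert_of_mem hj))]
    · rw [Set.disjoint_left]
      rintro x hx ⟨i, hi, hx'⟩
      have := hd a (Finset.mem_insert_self _ _) i (Finset.mem_insert_of_mem hi) x hx hx'
      rw [this] at ha
      exact ha hi

/-- injective images -/
theorem gfs_image {ν : α → ℤ} {ν' : β → ℤ} {S : Set α} {T : Set β} (φ : α → β)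
    (hinj : Set.InjOn φ S) (hT : ∀ y, y ∈ T ↔ ∃ x ∈ S, φ x = y)
    (hν : ∀ x ∈ S, ν' (φ x) = ν x) : gfs ν' T = gfs ν S := by
  ext m
  rw [coeff_gfs, coeff_gfs]
  have h1 : {y | y ∈ T ∧ ν' y = m} = φ '' {x | x ∈ S ∧ ν x = m} := by
    ext y
    constructor
    · rintro ⟨h1, h2⟩
      obtain ⟨x, hx, rfl⟩ := (hT y).mp h1
      exact ⟨x, ⟨hx, by rw [← hν x hx]; exact h2⟩, rfl⟩
    · rintro ⟨x, ⟨hx, hx2⟩, rfl⟩
      exact ⟨(hT _).mpr ⟨x, hx, rfl⟩, by rw [hν x hx]; exact hx2⟩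
  rw [h1, Set.InjOn.ncard_image (hinj.mono (fun x hx => hx.1))]

/-- adding a coordinate -/
def addc (ν : α → ℤ) : α × ℤ → ℤ := fun p => ν p.1 + |p.2|

theorem LFs_addc {ν : α → ℤ} {S : Set α} (h : LFs ν S) (h0 : ∀ x ∈ S, 0 ≤ ν x) :
    LFs (addc ν) {p | p.1 ∈ S} := by
  intro m
  have h1 : ({x | x ∈ S ∧ 0 ≤ ν x ∧ ν x ≤ m} ×ˢ Set.Icc (-(m : ℤ)) m : Set (α × ℤ)).Finite := by
    apply Set.Finite.prod _ (Set.finite_Icc _ _)
    have h2 : {x | x ∈ S ∧ 0 ≤ ν x ∧ ν x ≤ m} ⊆ ⋃ k ∈ Finset.range (m + 1), {x | x ∈ S ∧ ν x = (k : ℕ)} := by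
      rintro x ⟨hx, h2, h3⟩
      rw [Set.mem_iUnion₂]
      refine ⟨(ν x).toNat, ?_, hx, ?_⟩
      · rw [Finset.mem_range]; omega
      · omega
    exact (Set.Finite.biUnion (Finset.finite_toSet _) (fun k _ => h k)).subset h2
  apply h1.subset
  rintro ⟨x, c⟩ ⟨hx, hx2⟩
  simp only [Set.mem_ofPred_eq] at hx
  unfold addc at hx2
  simp only at hx2
  have h2 := h0 x hx
  have h3 := abs_nonneg c
  refine Set.mk_mem_prod ⟨hx, h2, by omega⟩ ?_
  rw [Set.mem_Icc]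
  exact ⟨by have := neg_abs_le c; omega, by have := le_abs_self c; omega⟩

theorem addc_nonneg {ν : α → ℤ} {S : Set α} (h0 : ∀ x ∈ S, 0 ≤ ν x) :
    ∀ p ∈ {p : α × ℤ | p.1 ∈ S}, 0 ≤ addc ν p := by
  rintro ⟨x, c⟩ hx
  have h2 := h0 x hx
  have h3 := abs_nonneg c
  unfold addc
  simp only
  omega

theorem gfs_pos {ν : α → ℤ} {S : Set α} (h : LFs ν S) (h0 : ∀ x ∈ S, 0 ≤ ν x) :
    (1 - PowerSeries.X) * gfs (addc ν) {p : α × ℤ | p.1 ∈ S ∧ 0 < p.2} =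
      PowerSeries.X * gfs ν S := by
  ext m
  rw [sub_mul, one_mul, map_sub]
  cases m with
  | zero =>
    rw [PowerSeries.coeff_zero_X_mul, PowerSeries.coeff_zero_X_mul, coeff_gfs]
    have : {x : α × ℤ | x ∈ {p : α × ℤ | p.1 ∈ S ∧ 0 < p.2} ∧ addc ν x = ((0 : ℕ) : ℤ)} = ∅ := by
      ext ⟨x, c⟩
      simp only [Set.mem_ofPred_eq, Set.mem_empty_iff_false, iff_false]
      rintro ⟨⟨h1, h2⟩, h3⟩
      unfold addc at h3
      simp only at h1 h2 h3
      have h4 := h0 x h1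
      rw [abs_of_pos h2] at h3
      push_cast at h3
      omega
    rw [this, Set.ncard_empty]
    simp
  | succ m =>
    rw [PowerSeries.coeff_succ_X_mul, PowerSeries.coeff_succ_X_mul, coeff_gfs, coeff_gfs, coeff_gfs]
    have hfin := LFs_addc h h0
    have h1 : {x : α × ℤ | x ∈ {p : α × ℤ | p.1 ∈ S ∧ 0 < p.2} ∧ addc ν x = ((m + 1 : ℕ) : ℤ)} =
        (fun p : α × ℤ => (p.1, p.2 + 1)) ''
          ({x : α × ℤ | x ∈ {p : α × ℤ | p.1 ∈ S ∧ 0 < p.2} ∧ addc ν x = (m : ℤ)} ∪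
            (fun x => (x, (0 : ℤ))) '' {x | x ∈ S ∧ ν x = m}) := by
      ext ⟨x, c⟩
      simp only [Set.mem_ofPred_eq, Set.mem_image, Set.mem_union, Prod.mk.injEq, Prod.exists]
      unfold addc
      constructor
      · rintro ⟨⟨h1, h2⟩, h3⟩
        simp only at h1 h2 h3
        rw [abs_of_pos h2] at h3
        push_cast at h3
        refine ⟨x, c - 1, ?_, rfl, by ring⟩
        rcases lt_or_eq_of_le (show 0 ≤ c - 1 by omega) with h4 | h4
        · left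
          refine ⟨⟨h1, h4⟩, ?_⟩
          simp only
          rw [abs_of_pos h4]; omega
        · right
          exact ⟨x, ⟨h1, by omega⟩, rfl, h4⟩
      · rintro ⟨x', c', h1, rfl, rfl⟩
        rcases h1 with ⟨⟨h1, h2⟩, h3⟩ | ⟨x'', ⟨h1, h2⟩, rfl, rfl⟩
        · simp only at h1 h2 h3 ⊢
          rw [abs_of_pos h2] at h3
          rw [abs_of_pos (by omega)]
          refine ⟨⟨h1, by omega⟩, by push_cast; omega⟩
        · simp only
          refine ⟨⟨h1, by omega⟩, ?_⟩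
          rw [abs_of_pos (by omega)]
          push_cast
          omega
    rw [h1, Set.ncard_image_of_injective, Set.ncard_union_eq ?_ ?_ ?_,
      Set.ncard_image_of_injective]
    · push_cast; ring
    · intro a b hab
      simpa using hab
    · rw [Set.disjoint_left]
      rintro ⟨x, c⟩ ⟨⟨h1, h2⟩, h3⟩ ⟨x', _, h4⟩
      simp only [Prod.mk.injEq] at h2 h4
      omega
    · exact (hfin m).subset (fun p hp => ⟨hp.1.1, hp.2⟩)
    · exact (h m).image _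
    · rintro ⟨x, c⟩ ⟨x', c'⟩ hab
      simp only [Prod.mk.injEq] at hab
      rw [Prod.mk.injEq]
      exact ⟨hab.1, by linarith [hab.2]⟩

/-- weight of a sign -/
noncomputable def wt (a : ℤ) : PowerSeries ℤ := if a = 0 then 1 - PowerSeries.X else PowerSeries.X

theorem gfs_sign {ν : α → ℤ} {S : Set α} (h : LFs ν S) (h0 : ∀ x ∈ S, 0 ≤ ν x) {a : ℤ}
    (ha : a = -1 ∨ a = 0 ∨ a = 1) :
    (1 - PowerSeries.X) * gfs (addc ν) {p : α × ℤ | p.1 ∈ S ∧ p.2.sign = a} =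
      wt a * gfs ν S := by
  rcases ha with rfl | rfl | rfl
  · have : gfs (addc ν) {p : α × ℤ | p.1 ∈ S ∧ p.2.sign = -1} =
        gfs (addc ν) {p : α × ℤ | p.1 ∈ S ∧ 0 < p.2} := by
      apply gfs_image (fun p : α × ℤ => (p.1, -p.2))
      · rintro ⟨x, c⟩ _ ⟨x', c'⟩ _ hab
        simp only [Prod.mk.injEq] at hab
        rw [Prod.mk.injEq]
        exact ⟨hab.1, by linarith [hab.2]⟩
      · rintro ⟨x, c⟩
        simp only [Set.mem_ofPred_eq, Prod.exists, Prod.mk.injEq, Int.sign_eq_neg_one_iff_neg]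
        constructor
        · rintro ⟨h1, h2⟩
          exact ⟨x, -c, ⟨h1, by omega⟩, rfl, by ring⟩
        · rintro ⟨x', c', ⟨h1, h2⟩, rfl, rfl⟩
          exact ⟨h1, by omega⟩
      · rintro ⟨x, c⟩ _
        unfold addc
        simp
    rw [this, gfs_pos h h0]
    unfold wt
    rw [if_neg (by norm_num)]
  · have : gfs (addc ν) {p : α × ℤ | p.1 ∈ S ∧ p.2.sign = 0} = gfs ν S := by
      apply gfs_image (fun x : α => (x, (0 : ℤ)))
      · intro x _ y _ hab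
        simpa using hab
      · rintro ⟨x, c⟩
        simp only [Set.mem_ofPred_eq, Prod.mk.injEq, Int.sign_eq_zero_iff_zero]
        constructor
        · rintro ⟨h1, h2⟩
          exact ⟨x, h1, rfl, h2.symm⟩
        · rintro ⟨x', h1, rfl, rfl⟩
          exact ⟨h1, rfl⟩
      · intro x _
        unfold addc
        simp
    rw [this]
    unfold wt
    rw [if_pos rfl]
  · have : gfs (addc ν) {p : α × ℤ | p.1 ∈ S ∧ p.2.sign = 1} =
        gfs (addc ν) {p : α × ℤ | p.1 ∈ S ∧ 0 < p.2} := by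
      apply gfs_congr_set
      rintro ⟨x, c⟩
      simp only [Set.mem_ofPred_eq, Int.sign_eq_one_iff_pos]
    rw [this, gfs_pos h h0]
    unfold wt
    rw [if_neg (by norm_num)]

/-- the three signs -/
def sgs : Finset ℤ := {-1, 0, 1}

theorem mem_sgs {a : ℤ} : a ∈ sgs ↔ a = -1 ∨ a = 0 ∨ a = 1 := by
  unfold sgs
  simp

theorem sign_mem (c : ℤ) : c.sign ∈ sgs := by
  rw [mem_sgs]
  rcases lt_trichotomy c 0 with h | h | h
  · left; exact Int.sign_eq_neg_one_iff_neg.2 h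
  · right; left; rw [h]; rfl
  · right; right; exact Int.sign_eq_one_iff_pos.2 h

/-- three extra coordinates -/
def addc3 (ν : α → ℤ) : ((α × ℤ) × ℤ) × ℤ → ℤ := addc (addc (addc ν))

theorem gfs_sign3 {ν : α → ℤ} {S : Set α} (h : LFs ν S) (h0 : ∀ x ∈ S, 0 ≤ ν x) {a b c : ℤ}
    (ha : a ∈ sgs) (hb : b ∈ sgs) (hc : c ∈ sgs) :
    (1 - PowerSeries.X) ^ 3 * gfs (addc3 ν) {p | p.1.1.1 ∈ S ∧ p.1.1.2.sign = a ∧
      p.1.2.sign = b ∧ p.2.sign = c} = wt a * wt b * wt c * gfs ν S := by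
  rw [mem_sgs] at ha hb hc
  have l1 := LFs_addc h h0
  have n1 := addc_nonneg h0
  have l2 := LFs_addc l1 n1
  have n2 := addc_nonneg n1
  have e1 := gfs_sign h h0 ha
  have e2 := gfs_sign (S := {p : α × ℤ | p.1 ∈ S ∧ p.2.sign = a}) (l1.mono (fun p hp => hp.1))
    (fun p hp => n1 p hp.1) hb
  have e3 := gfs_sign (S := {p : (α × ℤ) × ℤ | p.1 ∈ {p : α × ℤ | p.1 ∈ S ∧ p.2.sign = a} ∧
    p.2.sign = b}) (l2.mono (fun p hp => hp.1.1)) (fun p hp => n2 p hp.1.1) hc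
  have e4 : gfs (addc3 ν) {p | p.1.1.1 ∈ S ∧ p.1.1.2.sign = a ∧ p.1.2.sign = b ∧ p.2.sign = c} =
      gfs (addc (addc (addc ν))) {p : ((α × ℤ) × ℤ) × ℤ | p.1 ∈ {p : (α × ℤ) × ℤ |
        p.1 ∈ {p : α × ℤ | p.1 ∈ S ∧ p.2.sign = a} ∧ p.2.sign = b} ∧ p.2.sign = c} := by
    unfold addc3
    apply gfs_congr_set
    rintro ⟨⟨⟨x, r⟩, s⟩, t⟩
    simp only [Set.mem_ofPred_eq]
    tauto
  rw [e4]
  calc (1 - PowerSeries.X) ^ 3 * gfs (addc (addc (addc ν))) _ =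
      (1 - PowerSeries.X) ^ 2 * ((1 - PowerSeries.X) * gfs (addc (addc (addc ν))) _) := by ring
    _ = wt c * ((1 - PowerSeries.X) * ((1 - PowerSeries.X) * gfs (addc (addc ν)) _)) := by
      rw [e3]; ring
    _ = wt c * (wt b * ((1 - PowerSeries.X) * gfs (addc ν) _)) := by rw [e2]; ring
    _ = _ := by rw [e1]; ring

/-- decomposition into sign patterns -/
theorem gfs_patterns {ν : α → ℤ} {S : Set α} (h : LFs ν S) (h0 : ∀ x ∈ S, 0 ≤ ν x)
    (K : α → ℤ → ℤ → ℤ → Prop) (hK : ∀ x a b c, K x a b c ↔ K x a.sign b.sign c.sign) :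
    (1 - PowerSeries.X) ^ 3 * gfs (addc3 ν) {p | p.1.1.1 ∈ S ∧ K p.1.1.1 p.1.1.2 p.1.2 p.2} =
      ∑ a ∈ sgs, ∑ b ∈ sgs, ∑ c ∈ sgs, wt a * wt b * wt c * gfs ν {x | x ∈ S ∧ K x a b c} := by
  have hLF : LFs (addc3 ν) {p | p.1.1.1 ∈ S ∧ K p.1.1.1 p.1.1.2 p.1.2 p.2} := by
    have l1 := LFs_addc h h0
    have n1 := addc_nonneg h0
    have l2 := LFs_addc l1 n1
    have n2 := addc_nonneg n1
    exact (LFs_addc l2 n2).mono (fun p hp => hp.1)
  have e1 := gfs_biUnion (ν := addc3 ν) (sgs ×ˢ sgs ×ˢ sgs)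
    (fun q => {p : ((α × ℤ) × ℤ) × ℤ | p.1.1.1 ∈ {x | x ∈ S ∧ K x q.1 q.2.1 q.2.2} ∧
      p.1.1.2.sign = q.1 ∧ p.1.2.sign = q.2.1 ∧ p.2.sign = q.2.2})
    (S := {p | p.1.1.1 ∈ S ∧ K p.1.1.1 p.1.1.2 p.1.2 p.2}) hLF (by
      rintro ⟨⟨⟨x, r⟩, s⟩, t⟩
      simp only [Set.mem_ofPred_eq, mem_product, Prod.exists]
      constructor
      · rintro ⟨h1, h2⟩
        exact ⟨r.sign, s.sign, t.sign, ⟨sign_mem _, sign_mem _, sign_mem _⟩,
          ⟨h1, (hK _ _ _ _).1 h2⟩, rfl, rfl, rfl⟩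
      · rintro ⟨a, b, c, _, ⟨h1, h2⟩, rfl, rfl, rfl⟩
        exact ⟨h1, (hK _ _ _ _).2 h2⟩) (by
      rintro ⟨a, b, c⟩ _ ⟨a', b', c'⟩ _ x hx hx'
      simp only [Set.mem_ofPred_eq] at hx hx'
      obtain ⟨_, rfl, rfl, rfl⟩ := hx
      obtain ⟨_, rfl, rfl, rfl⟩ := hx'
      rfl)
  rw [e1, mul_sum, sum_product]
  apply sum_congr rfl
  intro a ha
  rw [sum_product]
  apply sum_congr rfl
  intro b hb
  apply sum_congr rfl
  intro c hc
  exact gfs_sign3 (h.mono (fun x hx => hx.1)) (fun x hx => h0 x hx.1) ha hb hc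

end Pool.Agent.J6H66.SEP
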