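import Pool.Agent.J6H66.SEP.Check
import Pool.Agent.R135.SEPGeo
import Pool.Agent.J6H66.SEP.GFS

/-!
# Graphs on five vertices
-/

set_option autoImplicit false
open Finset

namespace Pool.Agent.J6H66.SEP

open Pool.Agent.R135.SEP

/-- `hom [g_0, …, g_N] = ∑ g_j X^j (1 + X)^{2(N - j)}` -/
noncomputable def hom : List ℤ → PowerSeries ℤ
  | [] => 0
  | a :: g => (a : PowerSeries ℤ) * ((1 + PowerSeries.X) ^ 2) ^ g.length + PowerSeries.X * hom g

theorem nr_eq {L : List (ℕ × ℕ)} {d i : ℕ} (h2 : c2 L d i = true) (h3 : c3 d i = true) :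
    ((cellOf d i).arcs.filter (fun t => pr ((cellOf d i).A t) w5 < 0)).card = nr d i := by
  rw [card_filter, sum_arcs h2 h3, nr, sum4_eq]
  apply sum_congr rfl
  intro t _
  have hA : pr ((cellOf d i).A (tt d i t)) w5 = (bit (Ag d i t) 0 : ℤ) + bit (Ag d i t) 1 +
      bit (Ag d i t) 2 + bit (Ag d i t) 3 - 4 * bit (Ag d i t) 4 := by
    rw [A_tt h2 h3 t]
    unfold pr
    rw [Fin.sum_univ_five]
    simp only [w5, Matrix.cons_val]
    have e0 : bit (Ag d i t) ((0 : Fin 5) : ℕ) = bit (Ag d i t) 0 := rfl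
    have e1 : bit (Ag d i t) ((1 : Fin 5) : ℕ) = bit (Ag d i t) 1 := rfl
    have e2 : bit (Ag d i t) ((2 : Fin 5) : ℕ) = bit (Ag d i t) 2 := rfl
    have e3 : bit (Ag d i t) ((3 : Fin 5) : ℕ) = bit (Ag d i t) 3 := rfl
    have e4 : bit (Ag d i t) ((4 : Fin 5) : ℕ) = bit (Ag d i t) 4 := rfl
    rw [e0, e1, e2, e3, e4]
    ring
  have hb : bit (Ag d i t) (tt d i t).1 = 1 ∧ bit (Ag d i t) (tt d i t).2 = 0 := by
    have h4 := tt_dual h3 t t
    rw [if_pos rfl] at h4
    rw [(tt1 h2 t).1, (tt1 h2 t).2]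
    have h5 := bit_le (Ag d i t) (ag d i t)
    have h6 := bit_le (Ag d i t) (bg d i t)
    omega
  obtain ⟨hb1, hb2⟩ := hb
  rw [hA]
  have h5 := bit_le (Ag d i t) 0
  have h6 := bit_le (Ag d i t) 1
  have h7 := bit_le (Ag d i t) 2
  have h8 := bit_le (Ag d i t) 3
  have h9 := bit_le (Ag d i t) 4
  generalize (tt d i t).1 = a at hb1
  generalize (tt d i t).2 = b at hb2
  have h11 : ¬ (bit (Ag d i t) 0 = 1 ∧ bit (Ag d i t) 1 = 1 ∧ bit (Ag d i t) 2 = 1 ∧
      bit (Ag d i t) 3 = 1 ∧ bit (Ag d i t) 4 = 1) := by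
    rintro ⟨f0, f1, f2, f3, f4⟩
    have : bit (Ag d i t) b = 1 := by fin_cases b <;> assumption
    omega
  rcases Nat.lt_or_ge 0 (bit (Ag d i t) 4) with h12 | h12
  · rw [if_pos (by omega)]
    omega
  · rw [if_neg (by omega)]
    omega

theorem sum_cnt (d k : ℕ) : ∑ i : Fin k, (PowerSeries.X : PowerSeries ℤ) ^ nr d i =
    ∑ j ∈ range 5, (cntN d j k : PowerSeries ℤ) * PowerSeries.X ^ j := by
  induction k with
  | zero => simp [cntN]
  | succ k ih =>
    rw [Fin.sum_univ_castSucc]
    simp only [Fin.val_castSucc, Fin.val_last]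
    rw [ih]
    have h1 : nr d k < 5 := by
      have e : nr d k = bit (Ag d k 0) 4 + bit (Ag d k 1) 4 + bit (Ag d k 2) 4 +
        bit (Ag d k 3) 4 := rfl
      rw [e]
      have := bit_le (Ag d k 0) 4
      have := bit_le (Ag d k 1) 4
      have := bit_le (Ag d k 2) 4
      have := bit_le (Ag d k 3) 4
      omega
    have h2 : (PowerSeries.X : PowerSeries ℤ) ^ nr d k =
        ∑ j ∈ range 5, (kd (nr d k) j : PowerSeries ℤ) * PowerSeries.X ^ j := by
      simp only [kd_eq]
      rw [sum_eq_single (nr d k)]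
      · simp
      · intro b _ hb
        rw [if_neg (fun e => hb e.symm)]
        simp
      · intro h
        exact absurd (mem_range.2 h1) h
    rw [h2, ← sum_add_distrib]
    apply sum_congr rfl
    intro j _
    simp only [cntN]
    push_cast
    ring

/-- checker for the coefficients -/
def chkH (d k g1 g2 : ℕ) : Bool :=
  Nat.beq (cntN d 0 k) 1 && (Nat.beq (cntN d 1 k) (4 + g1) && (Nat.beq (cntN d 2 k)
    (6 + 2 * g1 + g2) && (Nat.beq (cntN d 3 k) (4 + g1) && Nat.beq (cntN d 4 k) 1)))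

theorem base_series {L : List (ℕ × ℕ)} {d k g1 g2 : ℕ} (h : chk L d k = true)
    (hH : chkH d k g1 g2 = true) (hc : (gr 5 L).Connected) :
    (1 - PowerSeries.X) ^ 4 * gf (nu (gr 5 L)) {x | bal x} = hom [1, g1, g2] := by
  have e1 := (chk_cert h).series hc
  have e2 : ∀ i : Fin k, ((cellOf d i).arcs.filter
      (fun t => pr ((cellOf d i).A t) w5 < 0)).card = nr d i := by
    intro i
    unfold chk at h
    rw [Bool.and_eq_true, Bool.and_eq_true, Nat.blt_eq, allN_iff, allN_iff] at h
    have := h.2.1 i i.2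
    simp only [Bool.and_eq_true] at this
    exact nr_eq this.2.1 this.2.2.1
  rw [sum_congr rfl (fun i _ => by rw [e2 i]), sum_cnt] at e1
  rw [show (4 : ℕ) = 5 - 1 from rfl, e1]
  unfold chkH at hH
  simp only [Bool.and_eq_true, Nat.beq_eq] at hH
  obtain ⟨f0, f1, f2, f3, f4⟩ := hH
  simp only [sum_range_succ, range_zero, sum_empty]
  rw [f0, f1, f2, f3, f4]
  simp only [hom, List.length]
  push_cast
  ring

/-! ### isomorphic graphs -/

section iso

variable {n : ℕ}

theorem nu_iso_le {G G' : SimpleGraph (Fin n)} (hG : G.Connected) (hG' : G'.Connected)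
    (σ : Equiv.Perm (Fin n)) (h : ∀ a b, G.Adj a b ↔ G'.Adj (σ a) (σ b)) {x : Fin n → ℤ}
    (hx : bal x) : nu G (fun a => x (σ a)) ≤ nu G' x := by
  have hx' : bal (fun a => x (σ a)) := by
    unfold bal at hx ⊢
    rw [Equiv.sum_comp σ x]
    exact hx
  obtain ⟨f, hf, hf2⟩ := nu_attained hG hx'
  rw [← hf2]
  have h1 : pr f (fun a => x (σ a)) = pr (fun a => f (σ.symm a)) x := by
    unfold pr
    rw [← Equiv.sum_comp σ (fun a => f (σ.symm a) * x a)]
    simp
  rw [h1]
  apply le_nu hG' hx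
  intro a b hab
  apply hf
  rw [h]
  simpa using hab

theorem gf_iso {G G' : SimpleGraph (Fin n)} (hG : G.Connected) (hG' : G'.Connected)
    (σ : Equiv.Perm (Fin n)) (h : ∀ a b, G.Adj a b ↔ G'.Adj (σ a) (σ b)) :
    gf (nu G) {x | bal x} = gf (nu G') {x | bal x} := by
  have e := gf_bij (ν := nu G) (ν' := nu G') (S := {x | bal x}) (T := {x | bal x})
    (fun x => fun a => x (σ a)) 0 (by
      intro x y hxy
      funext a
      have := congrFun hxy (σ.symm a)
      simpa using this) (by
      intro y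
      constructor
      · intro hy
        refine ⟨fun a => y (σ.symm a), ?_, ?_⟩
        · change ∑ a, y (σ.symm a) = 0
          rw [Equiv.sum_comp σ.symm y]
          exact hy
        · funext a
          simp
      · rintro ⟨x, hx, rfl⟩
        change ∑ a, x (σ a) = 0
        rw [Equiv.sum_comp σ x]
        exact hx) (by
      intro x hx
      rw [Nat.cast_zero, add_zero]
      apply le_antisymm
      · exact nu_iso_le hG hG' σ h hx
      · have h2 := nu_iso_le hG' hG σ.symm (fun a b => by rw [h]; simp)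
          (x := fun a => x (σ a)) (by
            change ∑ a, x (σ a) = 0
            rw [Equiv.sum_comp σ x]
            exact hx)
        simpa using h2) (fun x hx => nu_nonneg hG' hx)
  rw [e, pow_zero, one_mul]

end iso

/-! ### classes and leaves -/

/-- a class: edge list, data, number of cells, `γ_1`, `γ_2` -/
structure Cls where
  L : List (ℕ × ℕ)
  d : ℕ
  k : ℕ
  g1 : ℕ
  g2 : ℕ

/-- the check of a class -/
def Cls.ok (c : Cls) : Bool := chk c.L c.d c.k && chkH c.d c.k c.g1 c.g2

/-- the value of a packed permutation -/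
def pm (s a : ℕ) : ℕ := (s >>> (3 * a)) % 8

/-- `s` is an isomorphism of the graphs with edge lists `L`, `M` -/
def isoB (L M : List (ℕ × ℕ)) (s : ℕ) : Bool :=
  all5 fun a => Nat.blt (pm s a) 5 && all5 fun b =>
    (Nat.beq a b || !(Nat.beq (pm s a) (pm s b))) && (adjB L a b == adjB M (pm s a) (pm s b))

theorem isoB_spec {L M : List (ℕ × ℕ)} {s : ℕ} (h : isoB L M s = true) :
    ∃ σ : Equiv.Perm (Fin 5), ∀ a b, (gr 5 L).Adj a b ↔ (gr 5 M).Adj (σ a) (σ b) := by
  unfold isoB at h
  rw [all5_iff] at h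
  have h1 : ∀ a : Fin 5, pm s a < 5 := by
    intro a
    have := h a
    rw [Bool.and_eq_true, Nat.blt_eq] at this
    exact this.1
  have h2 : ∀ a b : Fin 5, (a = b ∨ pm s a ≠ pm s b) ∧ adjB L a b = adjB M (pm s a) (pm s b) := by
    intro a b
    have := h a
    rw [Bool.and_eq_true, all5_iff] at this
    have := this.2 b
    rw [Bool.and_eq_true, Bool.or_eq_true, Nat.beq_eq, Bool.not_eq_true', ← Bool.not_eq_true,
      Nat.beq_eq, beq_iff_eq] at this
    refine ⟨?_, this.2⟩
    rcases this.1 with h3 | h3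
    · exact Or.inl (Fin.ext h3)
    · exact Or.inr h3
  have hinj : Function.Injective (fun a : Fin 5 => (⟨pm s a, h1 a⟩ : Fin 5)) := by
    intro a b hab
    rcases (h2 a b).1 with h3 | h3
    · exact h3
    · exact absurd (congrArg Fin.val hab) h3
  refine ⟨Equiv.ofBijective _ (Finite.injective_iff_bijective.1 hinj), ?_⟩
  intro a b
  rw [gr_adj, gr_adj, (h2 a b).2]
  rfl

/-- the leaf function: look up the class -/
def leaf (cs : List Cls) (tab : List (ℕ × ℕ × ℕ)) (code : List (ℕ × ℕ) → ℕ) (L : List (ℕ × ℕ)) :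
    Option (List ℤ) :=
  match tab.find? (fun t => Nat.beq t.1 (code L)) with
  | none => none
  | some t =>
    match cs[t.2.1]? with
    | none => none
    | some c => bif isoB L c.L t.2.2 then some [1, (c.g1 : ℤ), (c.g2 : ℤ)] else none

theorem leaf_spec {cs : List Cls} {tab : List (ℕ × ℕ × ℕ)} {code : List (ℕ × ℕ) → ℕ}
    {L : List (ℕ × ℕ)} {g : List ℤ} (hcs : cs.all Cls.ok = true) (h : leaf cs tab code L = some g)
    (hc : (gr 5 L).Connected) :
    (1 - PowerSeries.X) ^ 4 * gf (nu (gr 5 L)) {x | bal x} = hom g ∧ g.length = 3 := by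
  unfold leaf at h
  split at h
  · exact absurd h (by simp)
  · rename_i t ht
    split at h
    · exact absurd h (by simp)
    · rename_i c hcc
      by_cases hi : isoB L c.L t.2.2 = true
      · rw [hi, cond_true, Option.some.injEq] at h
        subst h
        refine ⟨?_, rfl⟩
        obtain ⟨σ, hσ⟩ := isoB_spec hi
        have hc' : (gr 5 c.L).Connected := by
          have e : gr 5 L ≃g gr 5 c.L := ⟨σ, fun {a b} => (hσ a b).symm⟩
          exact (SimpleGraph.Iso.connected_iff e).1 hc
        rw [gf_iso hc hc' σ hσ]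
        have hmem : c ∈ cs := List.mem_of_getElem? hcc
        have hok := (List.all_eq_true.1 hcs) c hmem
        unfold Cls.ok at hok
        rw [Bool.and_eq_true] at hok
        exact base_series hok.1 hok.2 hc'
      · rw [Bool.not_eq_true] at hi
        rw [hi] at h
        exact absurd h (by simp)

end Pool.Agent.J6H66.SEP
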