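import Pool.Agent.J6H66.SEP.Rec

/-!
# Attaching two vertices of an incomplete path
-/

set_option autoImplicit false
open Finset

namespace Pool.Agent.J6H66.SEP

open Pool.Agent.R135.SEP

variable {n : ℕ}

theorem sgn_mul (a : ℤ) : a * a.sign = |a| ∧ -1 ≤ a.sign ∧ a.sign ≤ 1 := by
  rcases lt_trichotomy a 0 with h | h | h
  · rw [Int.sign_eq_neg_one_iff_neg.2 h, abs_of_neg h]; omega
  · rw [h]; simp
  · rw [Int.sign_eq_one_iff_pos.2 h, abs_of_pos h]; omega

/-- **The recursion when one edge of the path is missing.** -/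
theorem broken_rec {G : SimpleGraph (Fin (n + 2))} {H : SimpleGraph (Fin n)} {u v : Fin n}
    {b1 b2 b3 : Bool} (h : IsExt G H u v b1 b2 b3)
    (hb : (b1 = false ∧ b2 = true ∧ b3 = true) ∨ (b1 = true ∧ b2 = false ∧ b3 = true) ∨
      (b1 = true ∧ b2 = true ∧ b3 = false)) :
    (1 - PowerSeries.X) ^ 2 * gf (nu G) {x | bal x} =
      (1 + PowerSeries.X) ^ 2 * gf (nu H) {x | bal x} := by
  have hH := h.hconn
  have hLF : LFs (nu H) {y | bal y} := nu_LF hH
  have h0 : ∀ y ∈ {y : Fin n → ℤ | bal y}, 0 ≤ nu H y := fun y hy => nu_nonneg hH hy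
  have hne : (1 - PowerSeries.X : PowerSeries ℤ) ≠ 0 := by
    intro h0
    have := congrArg (PowerSeries.coeff 0) h0
    simp at this
  let K : ℤ → ℤ → ℤ → Prop := fun a b c =>
    (b1 = true ∨ a = 0) ∧ (b2 = true ∨ b = 0) ∧ (b3 = true ∨ c = 0)
  have e5 : ∀ x : ℤ, x.sign = 0 ↔ x = 0 := fun x => Int.sign_eq_zero_iff_zero
  have hK : ∀ (_x : Fin n → ℤ) (a b c : ℤ), K a b c ↔ K a.sign b.sign c.sign := by
    intro _ a b c
    simp only [K, e5]
  have key := gfs_patterns hLF h0 (fun _ => K) hK
  have main : gf (nu G) {x | bal x} = gfs (addc3 (nu H))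
      {p | p.1.1.1 ∈ {y : Fin n → ℤ | bal y} ∧ K p.1.1.2 p.1.2 p.2} := by
    have e0 : gf (nu G) {x | bal x} = gfs (nu G) {x | bal x} := rfl
    rw [e0]
    refine gfs_image (Psi u v) ?_ ?_ ?_
    · rintro ⟨⟨⟨y, a⟩, b⟩, c⟩ ⟨hy, hn⟩ ⟨⟨⟨y', a'⟩, b'⟩, c'⟩ ⟨hy', hn'⟩ heq
      obtain ⟨e1, e2, e3⟩ := Psi_inj heq
      have hk : a' - a = 0 := by
        have hn : K a b c := hn
        have hn' : K a' b' c' := hn'
        simp only [K] at hn hn'
        rcases hb with ⟨r1, r2, r3⟩ | ⟨r1, r2, r3⟩ | ⟨r1, r2, r3⟩ <;>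
          simp only [r1, r2, r3, Bool.false_eq_true, false_or, true_or, and_true, true_and]
            at hn hn' <;> omega
      rw [hk] at e1 e2 e3
      rw [zero_smul, sub_zero] at e1
      rw [e1, e2, e3, show a' = a by omega]
      simp
    · intro x
      constructor
      · intro hx
        obtain ⟨y, a, b, c, rfl⟩ := Psi_surj u v x
        have hy : bal y := (bal_Psi u v _).1 hx
        obtain ⟨k, hk⟩ : ∃ k, K (a + k) (b + k) (c + k) := by
          rcases hb with ⟨r1, r2, r3⟩ | ⟨r1, r2, r3⟩ | ⟨r1, r2, r3⟩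
          · exact ⟨-a, Or.inr (by ring), Or.inl r2, Or.inl r3⟩
          · exact ⟨-b, Or.inl r1, Or.inr (by ring), Or.inl r3⟩
          · exact ⟨-c, Or.inl r1, Or.inl r2, Or.inr (by ring)⟩
        exact ⟨(((y - k • ev u v, a + k), b + k), c + k),
          ⟨hy.sub ((bal_ev u v).smul k), hk⟩, Psi_shift u v y a b c k⟩
      · rintro ⟨z, ⟨hz, _⟩, rfl⟩
        exact (bal_Psi u v z).2 hz
    · rintro ⟨⟨⟨y, a⟩, b⟩, c⟩ ⟨hy, hn⟩
      have hy : bal y := hy
      have hn : K a b c := hn
      have hval : addc3 (nu H) (((y, a), b), c) = nu H y + |a| + |b| + |c| := rfl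
      rw [hval]
      apply le_antisymm
      · exact h.le hy hn.1 hn.2.1 hn.2.2
      · obtain ⟨f, hf, hf2⟩ := nu_attained hH hy
        have hO : Opt H y f := ⟨hf, hf2⟩
        obtain ⟨n1, n1'⟩ := sgn_mul a
        obtain ⟨n2, n2'⟩ := sgn_mul b
        obtain ⟨n3, n3'⟩ := sgn_mul c
        rcases hb with ⟨r1, r2, r3⟩ | ⟨r1, r2, r3⟩ | ⟨r1, r2, r3⟩
        · refine h.ge hy hO (x1 := f u - f v - b.sign - c.sign) (x2 := b.sign) (x3 := c.sign)
            (by ring) (fun hc => ?_) (fun _ => n2') (fun _ => n3') ?_ n2 n3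
          · rw [r1] at hc; exact absurd hc (by decide)
          · have : a = 0 := by
              rcases hn.1 with h1 | h1
              · rw [r1] at h1; exact absurd h1 (by decide)
              · exact h1
            rw [this]; simp
        · refine h.ge hy hO (x1 := a.sign) (x2 := f u - f v - a.sign - c.sign) (x3 := c.sign)
            (by ring) (fun _ => n1') (fun hc => ?_) (fun _ => n3') n1 ?_ n3
          · rw [r2] at hc; exact absurd hc (by decide)
          · have : b = 0 := by
              rcases hn.2.1 with h1 | h1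
              · rw [r2] at h1; exact absurd h1 (by decide)
              · exact h1
            rw [this]; simp
        · refine h.ge hy hO (x1 := a.sign) (x2 := b.sign) (x3 := f u - f v - a.sign - b.sign)
            (by ring) (fun _ => n1') (fun _ => n2') (fun hc => ?_) n1 n2 ?_
          · rw [r3] at hc; exact absurd hc (by decide)
          · have : c = 0 := by
              rcases hn.2.2 with h1 | h1
              · rw [r3] at h1; exact absurd h1 (by decide)
              · exact h1
            rw [this]; simp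
  rw [← main] at key
  apply mul_left_cancel₀ hne
  have w0 : wt 0 = 1 - PowerSeries.X := by unfold wt; simp
  have w1 : wt 1 = PowerSeries.X := by unfold wt; simp
  have w2 : wt (-1) = PowerSeries.X := by unfold wt; simp
  have e6 : gfs (nu H) {y | bal y} = gf (nu H) {y | bal y} := rfl
  have key2 : ∀ a b c : ℤ, gfs (nu H) {x | x ∈ {y : Fin n → ℤ | bal y} ∧ K a b c} =
      if (b1 = true ∨ a = 0) ∧ (b2 = true ∨ b = 0) ∧ (b3 = true ∨ c = 0) then
        gf (nu H) {y | bal y} else 0 := by
    intro a b c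
    rw [← e6]
    exact gfs_and (nu H) {y : Fin n → ℤ | bal y} (K a b c)
  simp only [key2, sum_sgs, w0, w1, w2] at key
  rcases hb with ⟨r1, r2, r3⟩ | ⟨r1, r2, r3⟩ | ⟨r1, r2, r3⟩
  · simp only [r1, r2, r3] at key
    norm_num at key
    linear_combination key
  · simp only [r1, r2, r3] at key
    norm_num at key
    linear_combination key
  · simp only [r1, r2, r3] at key
    norm_num at key
    linear_combination key

end Pool.Agent.J6H66.SEP
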