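import Pool.Agent.J6H66.SEP.Fan

/-!
# A Boolean checker for the certificates, for graphs on five vertices
-/

set_option autoImplicit false
open Finset

namespace Pool.Agent.J6H66.SEP

open Pool.Agent.R135.SEP

/-- membership of an unordered pair in a list of pairs -/
def mem2 (L : List (ℕ × ℕ)) (a b : ℕ) : Bool :=
  L.any (fun p => (Nat.beq p.1 a && Nat.beq p.2 b) || (Nat.beq p.1 b && Nat.beq p.2 a))

theorem mem2_iff (L : List (ℕ × ℕ)) (a b : ℕ) :
    mem2 L a b = true ↔ ((a, b) ∈ L ∨ (b, a) ∈ L) := by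
  unfold mem2
  rw [List.any_eq_true]
  constructor
  · rintro ⟨⟨x, y⟩, hp, h⟩
    simp only [Bool.or_eq_true, Bool.and_eq_true, Nat.beq_eq] at h
    rcases h with ⟨rfl, rfl⟩ | ⟨rfl, rfl⟩
    · exact Or.inl hp
    · exact Or.inr hp
  · rintro (h | h)
    · exact ⟨(a, b), h, by simp⟩
    · exact ⟨(b, a), h, by simp⟩

theorem mem2_comm (L : List (ℕ × ℕ)) (a b : ℕ) : mem2 L a b = mem2 L b a := by
  rw [Bool.eq_iff_iff, mem2_iff, mem2_iff, or_comm]

/-- the adjacency test -/
def adjB (L : List (ℕ × ℕ)) (a b : ℕ) : Bool := !(Nat.beq a b) && mem2 L a b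

theorem adjB_comm (L : List (ℕ × ℕ)) (a b : ℕ) : adjB L a b = adjB L b a := by
  unfold adjB
  rw [mem2_comm, show Nat.beq a b = Nat.beq b a by
    rw [Bool.eq_iff_iff, Nat.beq_eq, Nat.beq_eq]; exact eq_comm]

theorem adjB_iff (L : List (ℕ × ℕ)) (a b : ℕ) :
    adjB L a b = true ↔ a ≠ b ∧ ((a, b) ∈ L ∨ (b, a) ∈ L) := by
  unfold adjB
  rw [Bool.and_eq_true, mem2_iff]
  apply and_congr _ Iff.rfl
  rw [Bool.not_eq_true', ← Bool.not_eq_true, Nat.beq_eq]

/-- the graph on `Fin n` with the edges in the list `L` -/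
def gr (n : ℕ) (L : List (ℕ × ℕ)) : SimpleGraph (Fin n) where
  Adj a b := adjB L a.1 b.1 = true
  symm := ⟨fun a b h => by rw [adjB_comm]; exact h⟩
  loopless := ⟨fun a h => by
    rw [adjB_iff] at h
    exact h.1 rfl⟩

instance (n : ℕ) (L : List (ℕ × ℕ)) : DecidableRel (gr n L).Adj := fun a b =>
  inferInstanceAs (Decidable (adjB L a.1 b.1 = true))

theorem gr_adj {n : ℕ} {L : List (ℕ × ℕ)} {a b : Fin n} :
    (gr n L).Adj a b ↔ adjB L a.1 b.1 = true := Iff.rfl

/-- the bit `x` of `A` -/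
def bit (A x : ℕ) : ℕ := (A >>> x) % 2

/-- the weights -/
def om (a b : ℕ) : ℕ := 1073741824 + 2 ^ (5 * a + b)

/-- potential -/
def lg (d i x : ℕ) : ℕ := (d >>> (256 * i + 35 * x)) % 34359738368

/-- vertex of the dual polytope -/
def fg (d i x : ℕ) : ℕ := (lg d i x + 536870912) / 1073741824

/-- arc tails -/
def ag (d i t : ℕ) : ℕ := (d >>> (256 * i + 175 + 18 * t)) % 8

/-- arc heads -/
def bg (d i t : ℕ) : ℕ := (d >>> (256 * i + 178 + 18 * t)) % 8

/-- sides of the arcs -/
def Ag (d i t : ℕ) : ℕ := (d >>> (256 * i + 181 + 18 * t)) % 32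

/-- neighbouring cells -/
def jg (d i t : ℕ) : ℕ := (d >>> (256 * i + 186 + 18 * t)) % 128

/-- all of `0, …, 4` -/
def all5 (p : ℕ → Bool) : Bool := p 0 && (p 1 && (p 2 && (p 3 && p 4)))

/-- all of `0, …, 3` -/
def all4 (p : ℕ → Bool) : Bool := p 0 && (p 1 && (p 2 && p 3))

/-- one of `0, …, 3` -/
def ex4 (p : ℕ → Bool) : Bool := p 0 || (p 1 || (p 2 || p 3))

/-- all of `0, …, k - 1` -/
def allN (p : ℕ → Bool) : ℕ → Bool
  | 0 => true
  | k + 1 => p k && allN p k

/-- sum over `0, …, 3` -/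
def sum4 (p : ℕ → ℕ) : ℕ := p 0 + p 1 + p 2 + p 3

/-- Kronecker symbol -/
def kd (a b : ℕ) : ℕ := bif Nat.beq a b then 1 else 0

theorem kd_eq (a b : ℕ) : kd a b = if a = b then 1 else 0 := by
  unfold kd
  by_cases h : a = b
  · subst h; simp
  · have : Nat.beq a b = false := by rw [← Bool.not_eq_true, Nat.beq_eq]; exact h
    rw [this, if_neg h]; rfl

theorem all5_iff (p : ℕ → Bool) : all5 p = true ↔ ∀ x : Fin 5, p x.1 = true := by
  unfold all5
  simp only [Bool.and_eq_true]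
  constructor
  · rintro ⟨h0, h1, h2, h3, h4⟩ x
    fin_cases x <;> assumption
  · intro h
    exact ⟨h 0, h 1, h 2, h 3, h 4⟩

theorem all4_iff (p : ℕ → Bool) : all4 p = true ↔ ∀ x : Fin 4, p x.1 = true := by
  unfold all4
  simp only [Bool.and_eq_true]
  constructor
  · rintro ⟨h0, h1, h2, h3⟩ x
    fin_cases x <;> assumption
  · intro h
    exact ⟨h 0, h 1, h 2, h 3⟩

theorem ex4_iff (p : ℕ → Bool) : ex4 p = true ↔ ∃ x : Fin 4, p x.1 = true := by
  unfold ex4
  simp only [Bool.or_eq_true]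
  constructor
  · rintro (h | h | h | h)
    · exact ⟨0, h⟩
    · exact ⟨1, h⟩
    · exact ⟨2, h⟩
    · exact ⟨3, h⟩
  · rintro ⟨x, h⟩
    fin_cases x
    · exact Or.inl h
    · exact Or.inr (Or.inl h)
    · exact Or.inr (Or.inr (Or.inl h))
    · exact Or.inr (Or.inr (Or.inr h))

theorem allN_iff (p : ℕ → Bool) (k : ℕ) : allN p k = true ↔ ∀ i < k, p i = true := by
  induction k with
  | zero => simp [allN]
  | succ k ih =>
    rw [allN, Bool.and_eq_true, ih]
    constructor
    · rintro ⟨h1, h2⟩ i hi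
      rcases Nat.lt_succ_iff_lt_or_eq.1 hi with h | rfl
      · exact h2 i h
      · exact h1
    · intro h
      exact ⟨h k (Nat.lt_succ_self k), fun i hi => h i (Nat.lt_succ_of_lt hi)⟩

/-- `le` and `tight` and `lip` -/
def c1 (L : List (ℕ × ℕ)) (d i : ℕ) : Bool :=
  all5 fun a => all5 fun b => !(adjB L a b) ||
    (Nat.ble (lg d i a) (lg d i b + om a b) && (Nat.ble (fg d i a) (fg d i b + 1) &&
      (!(Nat.beq (lg d i a) (lg d i b + om a b)) ||
        ex4 fun t => Nat.beq (ag d i t) a && Nat.beq (bg d i t) b)))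

/-- `arc` -/
def c2 (L : List (ℕ × ℕ)) (d i : ℕ) : Bool :=
  all4 fun t => Nat.blt (ag d i t) 5 && (Nat.blt (bg d i t) 5 && (adjB L (ag d i t) (bg d i t) &&
    (Nat.beq (lg d i (ag d i t)) (lg d i (bg d i t) + om (ag d i t) (bg d i t)) &&
      Nat.beq (fg d i (ag d i t)) (fg d i (bg d i t) + 1))))

/-- `dual` -/
def c3 (d i : ℕ) : Bool :=
  all4 fun t => all4 fun t' => Nat.beq (bit (Ag d i t) (ag d i t'))
    (bit (Ag d i t) (bg d i t') + kd t t')

/-- `span` -/
def c4 (d i : ℕ) : Bool :=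
  all5 fun a => all5 fun c => Nat.beq
    (sum4 (fun t => bit (Ag d i t) a * kd (ag d i t) c) +
      sum4 (fun t => bit (Ag d i t) 0 * kd (bg d i t) c) + kd 0 c)
    (sum4 (fun t => bit (Ag d i t) 0 * kd (ag d i t) c) +
      sum4 (fun t => bit (Ag d i t) a * kd (bg d i t) c) + kd a c)

/-- the pivot step -/
def piv (d i j a b A : ℕ) : Bool :=
  Nat.blt (lg d j a + (lg d i b - lg d j b)) (lg d i a + (lg d j b - lg d i b)) &&
    all5 fun x => Nat.beq
      (lg d j x + ((lg d i a + (lg d j b - lg d i b)) - (lg d j a + (lg d i b - lg d j b))) *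
        bit A x + (lg d i b - lg d j b))
      (lg d i x + (lg d j b - lg d i b))

/-- `piv` -/
def c5 (d k i : ℕ) : Bool :=
  all4 fun t => Nat.blt (jg d i t) k && piv d i (jg d i t) (ag d i t) (bg d i t) (Ag d i t)

/-- code of the set of arcs -/
def code (d i : ℕ) : ℕ := sum4 fun t => 2 ^ (5 * ag d i t + bg d i t)

/-- the checker -/
def chk (L : List (ℕ × ℕ)) (d k : ℕ) : Bool :=
  Nat.blt 0 k && (allN (fun i => c1 L d i && (c2 L d i && (c3 d i && (c4 d i && c5 d k i)))) k &&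
    allN (fun i => Nat.blt (code d i) (code d (i + 1))) (k - 1))

/-- number of reversed arcs -/
def nr (d i : ℕ) : ℕ := sum4 fun t => bit (Ag d i t) 4

/-- the number of cells with `j` reversed arcs -/
def cntN (d j : ℕ) : ℕ → ℕ
  | 0 => 0
  | k + 1 => kd (nr d k) j + cntN d j k

/-! ### the cells -/

/-- the arc number `t` of the cell `i` -/
def tt (d i : ℕ) (t : Fin 4) : Fin 5 × Fin 5 :=
  (⟨ag d i t % 5, Nat.mod_lt _ (by norm_num)⟩, ⟨bg d i t % 5, Nat.mod_lt _ (by norm_num)⟩)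

/-- the cell `i` -/
def cellOf (d i : ℕ) : Cell 5 where
  l := fun x => (lg d i x : ℤ)
  f := fun x => (fg d i x : ℤ)
  arcs := univ.image (tt d i)
  A := fun p x => ∑ t : Fin 4, if tt d i t = p then (bit (Ag d i t) x : ℤ) else 0

/-- the test vector -/
def w5 : Fin 5 → ℤ := ![1, 1, 1, 1, -4]

/-- the weights -/
def omZ (a b : Fin 5) : ℤ := (om a b : ℤ)

section spec

variable {L : List (ℕ × ℕ)} {d k i : ℕ}

theorem tt1 (h2 : c2 L d i = true) (t : Fin 4) : ((tt d i t).1 : ℕ) = ag d i t ∧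
    ((tt d i t).2 : ℕ) = bg d i t := by
  unfold c2 at h2
  have := (all4_iff _).1 h2 t
  simp only [Bool.and_eq_true, Nat.blt_eq] at this
  exact ⟨Nat.mod_eq_of_lt this.1, Nat.mod_eq_of_lt this.2.1⟩

theorem tt_dual (h3 : c3 d i = true) (t t' : Fin 4) :
    (bit (Ag d i t) (ag d i t') : ℤ) - bit (Ag d i t) (bg d i t') = if t = t' then 1 else 0 := by
  unfold c3 at h3
  have := (all4_iff _).1 ((all4_iff _).1 h3 t) t'
  rw [Nat.beq_eq, kd_eq] at this
  rw [this]
  by_cases h : t = t'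
  · subst h; simp
  · have : (t : ℕ) ≠ t' := fun e => h (Fin.ext e)
    simp [h, this]

theorem tt_inj (h2 : c2 L d i = true) (h3 : c3 d i = true) : Function.Injective (tt d i) := by
  intro t t' he
  have e1 : ag d i t = ag d i t' := by
    rw [← (tt1 h2 t).1, ← (tt1 h2 t').1, he]
  have e2 : bg d i t = bg d i t' := by
    rw [← (tt1 h2 t).2, ← (tt1 h2 t').2, he]
  have h4 := tt_dual h3 t t
  have h5 := tt_dual h3 t t'
  rw [← e1, ← e2, h4] at h5
  by_contra hne
  rw [if_neg hne] at h5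
  simp at h5

theorem A_tt (h2 : c2 L d i = true) (h3 : c3 d i = true) (t : Fin 4) :
    (cellOf d i).A (tt d i t) = fun x : Fin 5 => (bit (Ag d i t) x : ℤ) := by
  funext x
  simp only [cellOf]
  have : ∀ t' : Fin 4, (if tt d i t' = tt d i t then (bit (Ag d i t') x : ℤ) else 0) =
      if t' = t then (bit (Ag d i t') x : ℤ) else 0 := by
    intro t'
    by_cases h : t' = t
    · subst h; simp
    · rw [if_neg h, if_neg (fun e => h (tt_inj h2 h3 e))]
  rw [sum_congr rfl (fun t' _ => this t')]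
  simp

theorem mem_arcs {p : Fin 5 × Fin 5} : p ∈ (cellOf d i).arcs ↔ ∃ t, tt d i t = p := by
  simp [cellOf]

theorem sum_arcs {M : Type} [AddCommMonoid M] (h2 : c2 L d i = true) (h3 : c3 d i = true)
    (F : Fin 5 × Fin 5 → M) : ∑ p ∈ (cellOf d i).arcs, F p = ∑ t, F (tt d i t) := by
  simp only [cellOf]
  rw [sum_image]
  intro t _ t' _ he
  exact tt_inj h2 h3 he

theorem sum4_eq (p : ℕ → ℕ) : sum4 p = ∑ t : Fin 4, p t := by
  unfold sum4
  rw [Fin.sum_univ_four]
  rfl

theorem bit_le (A x : ℕ) : bit A x ≤ 1 := by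
  unfold bit
  omega

theorem code_eq (h2 : c2 L d i = true) (h3 : c3 d i = true) :
    code d i = ∑ p ∈ (cellOf d i).arcs, 2 ^ (5 * (p.1 : ℕ) + p.2) := by
  rw [sum_arcs h2 h3]
  unfold code
  rw [sum4_eq]
  apply sum_congr rfl
  intro t _
  rw [(tt1 h2 t).1, (tt1 h2 t).2]

end spec

theorem chk_cert {L : List (ℕ × ℕ)} {d k : ℕ} (h : chk L d k = true) :
    Cert (gr 5 L) omZ w5 (fun i : Fin k => cellOf d i) := by
  unfold chk at h
  rw [Bool.and_eq_true, Bool.and_eq_true, Nat.blt_eq, allN_iff, allN_iff] at h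
  obtain ⟨hk, h1, h2⟩ := h
  have H1 : ∀ i : Fin k, c1 L d i = true := fun i => by
    have := h1 i i.2
    simp only [Bool.and_eq_true] at this
    exact this.1
  have H2 : ∀ i : Fin k, c2 L d i = true := fun i => by
    have := h1 i i.2
    simp only [Bool.and_eq_true] at this
    exact this.2.1
  have H3 : ∀ i : Fin k, c3 d i = true := fun i => by
    have := h1 i i.2
    simp only [Bool.and_eq_true] at this
    exact this.2.2.1
  have H4 : ∀ i : Fin k, c4 d i = true := fun i => by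
    have := h1 i i.2
    simp only [Bool.and_eq_true] at this
    exact this.2.2.2.1
  have H5 : ∀ i : Fin k, c5 d k i = true := fun i => by
    have := h1 i i.2
    simp only [Bool.and_eq_true] at this
    exact this.2.2.2.2
  have K1 : ∀ (i : Fin k) (a b : Fin 5), (gr 5 L).Adj a b →
      lg d i a ≤ lg d i b + om a b ∧ fg d i a ≤ fg d i b + 1 ∧
      (lg d i a = lg d i b + om a b → ∃ t : Fin 4, ag d i t = a ∧ bg d i t = b) := by
    intro i a b hab
    have := (all5_iff _).1 ((all5_iff _).1 (H1 i) a) b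
    rw [gr_adj] at hab
    rw [hab] at this
    simp only [Bool.not_true, Bool.false_or, Bool.and_eq_true, Bool.or_eq_true, Nat.ble_eq,
      Bool.not_eq_true', ex4_iff, Nat.beq_eq] at this
    refine ⟨this.1, this.2.1, fun he => ?_⟩
    rcases this.2.2 with h3 | h3
    · rw [← Bool.not_eq_true, Nat.beq_eq] at h3
      exact absurd he h3
    · exact h3
  have K2 : ∀ (i : Fin k) (t : Fin 4), (gr 5 L).Adj (tt d i t).1 (tt d i t).2 ∧
      lg d i (tt d i t).1 = lg d i (tt d i t).2 + om (tt d i t).1 (tt d i t).2 ∧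
      fg d i (tt d i t).1 = fg d i (tt d i t).2 + 1 := by
    intro i t
    have h3 := H2 i
    obtain ⟨e1, e2⟩ := tt1 h3 t
    unfold c2 at h3
    have := (all4_iff _).1 h3 t
    simp only [Bool.and_eq_true, Nat.blt_eq, Nat.beq_eq] at this
    rw [gr_adj, e1, e2]
    exact ⟨this.2.2.1, this.2.2.2.1, this.2.2.2.2⟩
  have hA : ∀ (i : Fin k) (t : Fin 4) (x : Fin 5 → ℤ), pr ((cellOf d i).A (tt d i t)) x =
      ∑ a : Fin 5, (bit (Ag d i t) a : ℤ) * x a := by
    intro i t x
    rw [A_tt (H2 i) (H3 i) t]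
    rfl
  have hbit01 : ∀ (i : Fin k) (t : Fin 4), bit (Ag d i t) (tt d i t).1 = 1 ∧
      bit (Ag d i t) (tt d i t).2 = 0 := by
    intro i t
    have h3 := tt_dual (H3 i) t t
    rw [if_pos rfl] at h3
    rw [(tt1 (H2 i) t).1, (tt1 (H2 i) t).2]
    have h4 := bit_le (Ag d i t) (ag d i t)
    have h5 := bit_le (Ag d i t) (bg d i t)
    omega
  refine ⟨?_, hk, ?_, ?_, ?_, ?_, ?_, ?_, ?_, ?_, ?_, ?_⟩
  · unfold bal w5
    decide
  · intro i a b hab
    have := (K1 i a b hab).1
    simp only [cellOf, omZ]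
    omega
  · intro i a b hab he
    simp only [cellOf, omZ] at he
    obtain ⟨t, ht1, ht2⟩ := (K1 i a b hab).2.2 (by omega)
    rw [mem_arcs]
    refine ⟨t, ?_⟩
    apply Prod.ext
    · apply Fin.ext
      rw [(tt1 (H2 i) t).1, ht1]
    · apply Fin.ext
      rw [(tt1 (H2 i) t).2, ht2]
  · intro i p hp
    obtain ⟨t, rfl⟩ := mem_arcs.1 hp
    obtain ⟨h3, h4, h5⟩ := K2 i t
    simp only [cellOf, omZ]
    refine ⟨by omega, by omega, h3⟩
  · intro i a b hab
    have := (K1 i a b hab).2.1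
    simp only [cellOf]
    omega
  · intro i p hp p' hp'
    obtain ⟨t, rfl⟩ := mem_arcs.1 hp
    obtain ⟨t', rfl⟩ := mem_arcs.1 hp'
    rw [A_tt (H2 i) (H3 i) t]
    simp only
    rw [(tt1 (H2 i) t').1, (tt1 (H2 i) t').2, tt_dual (H3 i) t t']
    by_cases h3 : t = t'
    · subst h3; simp
    · rw [if_neg h3, if_neg (fun e => h3 (tt_inj (H2 i) (H3 i) e))]
  · intro i x hx
    funext c
    rw [sum_arcs (H2 i) (H3 i) (fun t => (pr ((cellOf d i).A t) x) • ev t.1 t.2)]
    rw [Finset.sum_apply]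
    have h4 : ∀ a : Fin 5, (∑ t : Fin 4, (bit (Ag d i t) a : ℤ) *
          ((if (tt d i t).1 = c then 1 else 0) - (if (tt d i t).2 = c then 1 else 0))) =
        (if a = c then 1 else 0) + (∑ t : Fin 4, (bit (Ag d i t) 0 : ℤ) *
          ((if (tt d i t).1 = c then 1 else 0) - (if (tt d i t).2 = c then 1 else 0)) -
            (if (0 : Fin 5) = c then 1 else 0)) := by
      intro a
      have h5 := (all5_iff _).1 ((all5_iff _).1 (H4 i) a) c
      rw [Nat.beq_eq, sum4_eq, sum4_eq, sum4_eq, sum4_eq] at h5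
      have h6 : ∀ x y : Fin 5, kd x y = if x = y then 1 else 0 := by
        intro x y
        rw [kd_eq]
        simp only [Fin.ext_iff]
      have h7 : ∀ t : Fin 4, kd (ag d i t) c = if (tt d i t).1 = c then 1 else 0 := by
        intro t
        rw [← (tt1 (H2 i) t).1, h6]
      have h8 : ∀ t : Fin 4, kd (bg d i t) c = if (tt d i t).2 = c then 1 else 0 := by
        intro t
        rw [← (tt1 (H2 i) t).2, h6]
      have h9 : kd 0 c = if (0 : Fin 5) = c then 1 else 0 := h6 0 c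
      rw [h6 a c, h9] at h5
      simp only [h7, h8] at h5
      simp only [mul_sub, sum_sub_distrib]
      have h10 := congrArg (Nat.cast : ℕ → ℤ) h5
      push_cast at h10
      linarith
    have h5 : ∀ t : Fin 4, (pr ((cellOf d i).A (tt d i t)) x • ev (tt d i t).1 (tt d i t).2) c =
        ∑ a, x a * ((bit (Ag d i t) a : ℤ) *
          ((if (tt d i t).1 = c then 1 else 0) - (if (tt d i t).2 = c then 1 else 0))) := by
      intro t
      rw [hA]
      simp only [Pi.smul_apply, smul_eq_mul, ev, Pi.sub_apply, Pi.single_apply]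
      rw [sum_mul]
      apply sum_congr rfl
      intro a _
      simp only [eq_comm]
      ring
    rw [sum_congr rfl (fun t _ => h5 t), sum_comm]
    have h6 : ∀ a : Fin 5, ∑ t : Fin 4, x a * ((bit (Ag d i t) a : ℤ) *
          ((if (tt d i t).1 = c then 1 else 0) - (if (tt d i t).2 = c then 1 else 0))) =
        x a * (if a = c then 1 else 0) + x a * (∑ t : Fin 4, (bit (Ag d i t) 0 : ℤ) *
          ((if (tt d i t).1 = c then 1 else 0) - (if (tt d i t).2 = c then 1 else 0)) -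
            (if (0 : Fin 5) = c then 1 else 0)) := by
      intro a
      rw [← mul_sum, h4 a]
      ring
    rw [sum_congr rfl (fun a _ => h6 a), sum_add_distrib, ← sum_mul, show ∑ a, x a = 0 from hx]
    simp
  · intro i p hp
    obtain ⟨t, rfl⟩ := mem_arcs.1 hp
    rw [hA]
    obtain ⟨h3, h4⟩ := hbit01 i t
    have h5 := bit_le (Ag d i t) 0
    have h6 := bit_le (Ag d i t) 1
    have h7 := bit_le (Ag d i t) 2
    have h8 := bit_le (Ag d i t) 3
    have h9 := bit_le (Ag d i t) 4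
    rw [Fin.sum_univ_five]
    simp only [w5, Matrix.cons_val]
    intro h0
    generalize (tt d i t).1 = a at h3
    generalize (tt d i t).2 = b at h4
    have e0 : bit (Ag d i t) ((0 : Fin 5) : ℕ) = bit (Ag d i t) 0 := rfl
    have e1 : bit (Ag d i t) ((1 : Fin 5) : ℕ) = bit (Ag d i t) 1 := rfl
    have e2 : bit (Ag d i t) ((2 : Fin 5) : ℕ) = bit (Ag d i t) 2 := rfl
    have e3 : bit (Ag d i t) ((3 : Fin 5) : ℕ) = bit (Ag d i t) 3 := rfl
    have e4 : bit (Ag d i t) ((4 : Fin 5) : ℕ) = bit (Ag d i t) 4 := rfl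
    rw [e0, e1, e2, e3, e4] at h0
    have h10 : (bit (Ag d i t) 0 = 0 ∧ bit (Ag d i t) 1 = 0 ∧ bit (Ag d i t) 2 = 0 ∧
        bit (Ag d i t) 3 = 0 ∧ bit (Ag d i t) 4 = 0) ∨
        (bit (Ag d i t) 0 = 1 ∧ bit (Ag d i t) 1 = 1 ∧ bit (Ag d i t) 2 = 1 ∧
        bit (Ag d i t) 3 = 1 ∧ bit (Ag d i t) 4 = 1) := by omega
    rcases h10 with ⟨f0, f1, f2, f3, f4⟩ | ⟨f0, f1, f2, f3, f4⟩
    · have : bit (Ag d i t) a = 0 := by fin_cases a <;> assumption
      omega
    · have : bit (Ag d i t) b = 1 := by fin_cases b <;> assumption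
      omega
  · intro i p hp
    obtain ⟨t, rfl⟩ := mem_arcs.1 hp
    have h3 := (all4_iff _).1 (H5 i) t
    rw [Bool.and_eq_true, Nat.blt_eq] at h3
    obtain ⟨hj, h3⟩ := h3
    unfold piv at h3
    rw [Bool.and_eq_true, Nat.blt_eq, all5_iff] at h3
    obtain ⟨h3, h4⟩ := h3
    generalize hkp : lg d (jg d i t) (bg d i t) - lg d i (bg d i t) = kp at h3 h4
    generalize hkm : lg d i (bg d i t) - lg d (jg d i t) (bg d i t) = km at h3 h4
    generalize hP : lg d i (ag d i t) + kp = P at h3 h4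
    generalize hQ : lg d (jg d i t) (ag d i t) + km = Q at h3 h4
    refine ⟨⟨jg d i t, hj⟩, (P : ℤ) - Q, (kp : ℤ) - km, by omega, ?_⟩
    intro a
    rw [A_tt (H2 i) (H3 i) t]
    have h5 := h4 a
    rw [Nat.beq_eq] at h5
    have h6 := congrArg (Nat.cast : ℕ → ℤ) h5
    rw [Nat.cast_add, Nat.cast_add, Nat.cast_mul, Nat.cast_sub h3.le, Nat.cast_add] at h6
    simp only [cellOf]
    linarith
  · intro i j hij
    have hc : ∀ i : Fin k, (cellOf d i).arcs.card = 4 := by
      intro i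
      simp only [cellOf]
      rw [card_image_of_injective _ (tt_inj (H2 i) (H3 i))]
      rfl
    have h3 : (cellOf d j).arcs = (cellOf d i).arcs :=
      eq_of_subset_of_card_le hij (by rw [hc, hc])
    have h4 : code d j = code d i := by
      rw [code_eq (H2 j) (H3 j), code_eq (H2 i) (H3 i), h3]
    have hmono : ∀ s r : ℕ, r + s < k → code d r < code d (r + s) ∨ s = 0 := by
      intro s
      induction s with
      | zero => intro r _; exact Or.inr rfl
      | succ s ih =>
        intro r hr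
        left
        have h5 := h2 (r + s) (by omega)
        rw [Nat.blt_eq] at h5
        rcases ih r (by omega) with h6 | h6
        · exact h6.trans h5
        · subst h6
          exact h5
    rcases lt_trichotomy (i : ℕ) (j : ℕ) with h5 | h5 | h5
    · have h6 := hmono (j - i) i (by omega)
      rw [show (i : ℕ) + (j - i) = j by omega] at h6
      omega
    · exact Fin.ext h5
    · have h6 := hmono (i - j) j (by omega)
      rw [show (j : ℕ) + (i - j) = i by omega] at h6
      omega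
  · intro i
    simp only [cellOf]
    rw [card_image_of_injective _ (tt_inj (H2 i) (H3 i))]
    rfl

end Pool.Agent.J6H66.SEP
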