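import Pool.Agent.R135.SEPGeo
import Pool.Agent.R135.SEPGen
import Pool.Agent.J6H66.SEP.GFS
import Pool.Agent.J6H66.SEP.Arith

/-!
# Attaching a path of length three
-/

set_option autoImplicit false
open Finset

namespace Pool.Agent.J6H66.SEP

open Pool.Agent.R135.SEP

variable {n : ℕ}

/-- embedding of the old vertices -/
def em (i : Fin n) : Fin (n + 2) := i.castSucc.castSucc

/-- first new vertex -/
def pv (n : ℕ) : Fin (n + 2) := (Fin.last n).castSucc

/-- second new vertex -/
def qv (n : ℕ) : Fin (n + 2) := Fin.last (n + 1)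

theorem sum2 (x : Fin (n + 2) → ℤ) : ∑ i, x i = ∑ i, x (em i) + x (pv n) + x (qv n) := by
  rw [Fin.sum_univ_castSucc, Fin.sum_univ_castSucc]; rfl

theorem fin2_cases {P : Fin (n + 2) → Prop} (h1 : ∀ i, P (em i)) (h2 : P (pv n)) (h3 : P (qv n)) :
    ∀ i, P i := by
  intro i
  refine Fin.lastCases h3 (fun i => ?_) i
  exact Fin.lastCases h2 (fun i => h1 i) i

/-- `G` is obtained from `H` by attaching the path `u - p - q - v`, some edges of which may be
missing. -/
structure IsExt (G : SimpleGraph (Fin (n + 2))) (H : SimpleGraph (Fin n)) (u v : Fin n)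
    (b1 b2 b3 : Bool) : Prop where
  conn : G.Connected
  hconn : H.Connected
  lip : ∀ f, Lip G f ↔ Lip H (fun i => f (em i)) ∧
    (b1 = true → -1 ≤ f (em u) - f (pv n) ∧ f (em u) - f (pv n) ≤ 1) ∧
    (b2 = true → -1 ≤ f (pv n) - f (qv n) ∧ f (pv n) - f (qv n) ≤ 1) ∧
    (b3 = true → -1 ≤ f (qv n) - f (em v) ∧ f (qv n) - f (em v) ≤ 1)

/-- the vector with flows `a, b, c` on the new edges -/
def Psi (u v : Fin n) (z : (((Fin n → ℤ) × ℤ) × ℤ) × ℤ) : Fin (n + 2) → ℤ :=
  Fin.snoc (α := fun _ => ℤ) (Fin.snoc (α := fun _ => ℤ)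
    (fun i => z.1.1.1 i + (if i = u then z.1.1.2 else 0) - (if i = v then z.2 else 0))
    (z.1.2 - z.1.1.2)) (z.2 - z.1.2)

theorem Psi_em (u v : Fin n) (z : (((Fin n → ℤ) × ℤ) × ℤ) × ℤ) (i : Fin n) :
    Psi u v z (em i) = z.1.1.1 i + (if i = u then z.1.1.2 else 0) - (if i = v then z.2 else 0) := by
  unfold Psi em
  rw [Fin.snoc_castSucc, Fin.snoc_castSucc]

theorem Psi_pv (u v : Fin n) (z : (((Fin n → ℤ) × ℤ) × ℤ) × ℤ) :
    Psi u v z (pv n) = z.1.2 - z.1.1.2 := by
  unfold Psi pv
  rw [Fin.snoc_castSucc, Fin.snoc_last]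

theorem Psi_qv (u v : Fin n) (z : (((Fin n → ℤ) × ℤ) × ℤ) × ℤ) :
    Psi u v z (qv n) = z.2 - z.1.2 := by
  unfold Psi qv
  rw [Fin.snoc_last]

theorem pr_Psi (u v : Fin n) (z : (((Fin n → ℤ) × ℤ) × ℤ) × ℤ) (f : Fin (n + 2) → ℤ) :
    pr f (Psi u v z) = pr (fun i => f (em i)) z.1.1.1 + z.1.1.2 * (f (em u) - f (pv n)) +
      z.1.2 * (f (pv n) - f (qv n)) + z.2 * (f (qv n) - f (em v)) := by
  unfold pr
  rw [sum2 (fun a => f a * Psi u v z a)]
  simp only [Psi_em, Psi_pv, Psi_qv]
  simp only [mul_sub, mul_add, sum_sub_distrib, sum_add_distrib, mul_ite, mul_zero,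
    sum_ite_eq', mem_univ, if_true]
  ring

theorem bal_Psi (u v : Fin n) (z : (((Fin n → ℤ) × ℤ) × ℤ) × ℤ) :
    bal (Psi u v z) ↔ bal z.1.1.1 := by
  unfold bal
  rw [sum2 (Psi u v z)]
  simp only [Psi_em, Psi_pv, Psi_qv]
  simp only [sum_sub_distrib, sum_add_distrib, sum_ite_eq', mem_univ, if_true]
  constructor <;> intro h <;> linarith

theorem Psi_shift (u v : Fin n) (y : Fin n → ℤ) (a b c k : ℤ) :
    Psi u v (((y - k • ev u v, a + k), b + k), c + k) = Psi u v (((y, a), b), c) := by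
  funext i
  revert i
  apply fin2_cases
  · intro i
    rw [Psi_em, Psi_em]
    simp only [Pi.sub_apply, Pi.smul_apply, smul_eq_mul, ev, Pi.single_apply]
    split_ifs <;> ring
  · rw [Psi_pv, Psi_pv]
    simp only
    ring
  · rw [Psi_qv, Psi_qv]
    simp only
    ring

theorem Psi_surj (u v : Fin n) (x : Fin (n + 2) → ℤ) : ∃ y a b c, Psi u v (((y, a), b), c) = x := by
  refine ⟨fun i => x (em i) + (if i = v then x (qv n) + x (pv n) else 0), 0, x (pv n),
    x (qv n) + x (pv n), ?_⟩
  funext i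
  revert i
  apply fin2_cases
  · intro i
    rw [Psi_em]
    simp only
    split_ifs <;> ring
  · rw [Psi_pv]
    simp only
    ring
  · rw [Psi_qv]
    simp only
    ring

theorem Psi_inj {u v : Fin n} {y y' : Fin n → ℤ} {a b c a' b' c' : ℤ}
    (h : Psi u v (((y, a), b), c) = Psi u v (((y', a'), b'), c')) :
    y' = y - (a' - a) • ev u v ∧ b' = b + (a' - a) ∧ c' = c + (a' - a) := by
  have h1 := congrFun h (pv n)
  have h2 := congrFun h (qv n)
  rw [Psi_pv, Psi_pv] at h1
  rw [Psi_qv, Psi_qv] at h2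
  simp only at h1 h2
  refine ⟨?_, by linarith, by linarith⟩
  funext i
  have h3 := congrFun h (em i)
  rw [Psi_em, Psi_em] at h3
  simp only at h3
  simp only [Pi.sub_apply, Pi.smul_apply, smul_eq_mul, ev, Pi.single_apply]
  split_ifs at h3 ⊢ <;> linarith

/-- the left slope -/
noncomputable def sm' (H : SimpleGraph (Fin n)) (u v : Fin n) (y : Fin n → ℤ) : ℤ :=
  sp H u v (y - ev u v)

theorem sm'_le {H : SimpleGraph (Fin n)} (hH : H.Connected) (u v : Fin n) {y : Fin n → ℤ}
    (hy : bal y) : sm' H u v y ≤ sp H u v y := sm_le_sp hH hy u v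

/-- every slope between the left and the right one is attained by an optimal potential -/
theorem exists_slope {H : SimpleGraph (Fin n)} (hH : H.Connected) (u v : Fin n) {y : Fin n → ℤ}
    (hy : bal y) {δ : ℤ} (h1 : sm' H u v y ≤ δ) (h2 : δ ≤ sp H u v y) :
    ∃ f, Opt H y f ∧ f u - f v = δ := by
  obtain ⟨g, hg, hg2⟩ := sp_spec hH hy u v
  have key : ∀ (k : ℕ) (f : Fin n → ℤ), Opt H y f → pr f (ev u v) ≤ δ →
      δ - pr f (ev u v) ≤ k → ∃ f', Opt H y f' ∧ pr f' (ev u v) = δ := by
    intro k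
    induction k with
    | zero =>
      intro f hf h3 h4
      push_cast at h4
      exact ⟨f, hf, by linarith⟩
    | succ k ih =>
      intro f hf h3 h4
      by_cases h5 : pr f (ev u v) = δ
      · exact ⟨f, hf, h5⟩
      · obtain ⟨f', hf', h6⟩ := opt_intermediate hH hy u v hf hg (by omega)
        push_cast at h4
        exact ih f' hf' (by omega) (by omega)
  obtain ⟨f, hf, _, hf3⟩ := sm_spec hH hy u v
  obtain ⟨f', hf', h4⟩ := key (δ - pr f (ev u v)).toNat f hf (by rw [hf3]; exact h1)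
    (Int.self_le_toNat _)
  rw [pr_ev] at h4
  exact ⟨f', hf', h4⟩

namespace IsExt

variable {G : SimpleGraph (Fin (n + 2))} {H : SimpleGraph (Fin n)} {u v : Fin n} {b1 b2 b3 : Bool}

theorem le (h : IsExt G H u v b1 b2 b3) {y : Fin n → ℤ} (hy : bal y) {a b c : ℤ}
    (ha : b1 = true ∨ a = 0) (hb : b2 = true ∨ b = 0) (hc : b3 = true ∨ c = 0) :
    nu G (Psi u v (((y, a), b), c)) ≤ nu H y + |a| + |b| + |c| := by
  have hbal : bal (Psi u v (((y, a), b), c)) := (bal_Psi u v _).2 hy
  obtain ⟨f, hf, hf2⟩ := nu_attained h.conn hbal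
  rw [← hf2, pr_Psi]
  simp only
  obtain ⟨k1, k2, k3, k4⟩ := (h.lip f).1 hf
  have m1 := le_nu h.hconn hy k1
  have aux : ∀ (b' : Bool) (w x : ℤ), (b' = true ∨ w = 0) → (b' = true → -1 ≤ x ∧ x ≤ 1) →
      w * x ≤ |w| := by
    intro b' w x h1 h2
    rcases h1 with h1 | h1
    · obtain ⟨h3, h4⟩ := h2 h1
      rcases abs_cases w with ⟨h5, h6⟩ | ⟨h5, h6⟩
      · rw [h5]; nlinarith
      · rw [h5]; nlinarith
    · rw [h1]; simp
  have m2 := aux b1 a _ ha k2
  have m3 := aux b2 b _ hb k3
  have m4 := aux b3 c _ hc k4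
  linarith

theorem ge (h : IsExt G H u v b1 b2 b3) {y : Fin n → ℤ} (hy : bal y) {a b c : ℤ}
    {f : Fin n → ℤ} (hf : Opt H y f) {x1 x2 x3 : ℤ} (hx : x1 + x2 + x3 = f u - f v)
    (h1 : b1 = true → -1 ≤ x1 ∧ x1 ≤ 1) (h2 : b2 = true → -1 ≤ x2 ∧ x2 ≤ 1)
    (h3 : b3 = true → -1 ≤ x3 ∧ x3 ≤ 1) (ha : a * x1 = |a|) (hb : b * x2 = |b|)
    (hc : c * x3 = |c|) :
    nu H y + |a| + |b| + |c| ≤ nu G (Psi u v (((y, a), b), c)) := by
  have hbal : bal (Psi u v (((y, a), b), c)) := (bal_Psi u v _).2 hy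
  set g : Fin (n + 2) → ℤ := Fin.snoc (α := fun _ => ℤ) (Fin.snoc (α := fun _ => ℤ) f (f u - x1))
    (f u - x1 - x2) with hg
  have g1 : ∀ i, g (em i) = f i := by
    intro i
    rw [hg]
    unfold em
    rw [Fin.snoc_castSucc, Fin.snoc_castSucc]
  have g2 : g (pv n) = f u - x1 := by
    rw [hg]
    unfold pv
    rw [Fin.snoc_castSucc, Fin.snoc_last]
  have g3 : g (qv n) = f u - x1 - x2 := by
    rw [hg]
    unfold qv
    rw [Fin.snoc_last]
  have hl : Lip G g := by
    rw [h.lip]
    simp only [g1, g2, g3]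
    refine ⟨hf.1, fun hb1 => ?_, fun hb2 => ?_, fun hb3 => ?_⟩
    · have := h1 hb1; omega
    · have := h2 hb2; omega
    · have := h3 hb3; omega
  have := le_nu h.conn hbal hl
  rw [pr_Psi] at this
  simp only [g1, g2, g3] at this
  have e1 : f u - (f u - x1) = x1 := by ring
  have e2 : f u - x1 - (f u - x1 - x2) = x2 := by ring
  have e3 : f u - x1 - x2 - f v = x3 := by linarith
  rw [e1, e2, e3, ha, hb, hc] at this
  have e4 : pr (fun i => f i) y = nu H y := hf.2
  linarith

end IsExt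

/-- slopes go below any bound two on the far side: nonnegativity of the gauge -/
theorem slope_small {H : SimpleGraph (Fin n)} (hH : H.Connected) (u v : Fin n) {y : Fin n → ℤ}
    (hy : bal y) (k : ℤ) : ∃ j, k < j ∧ sp H u v (y - j • ev u v) ≤ 1 := by
  by_contra hcon
  push Not at hcon
  have hb : ∀ j : ℤ, bal (y - j • ev u v) := fun j => hy.sub ((bal_ev u v).smul j)
  have key : ∀ N : ℕ, nu H (y - (k + N) • ev u v) ≤ nu H (y - k • ev u v) - 2 * N := by
    intro N
    induction N with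
    | zero => simp
    | succ N ih =>
      have h1 := hcon (k + (N + 1 : ℕ)) (by push_cast; omega)
      unfold sp at h1
      have e : y - (k + (N + 1 : ℕ)) • ev u v + ev u v = y - (k + N) • ev u v := by
        push_cast
        module
      rw [e] at h1
      push_cast at h1 ⊢
      omega
  have h1 := key (nu H (y - k • ev u v)).toNat.succ
  have h2 := nu_nonneg hH (hb (k + (nu H (y - k • ev u v)).toNat.succ))
  have h3 := Int.self_le_toNat (nu H (y - k • ev u v))
  push_cast at h1 h2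
  omega

theorem slope_large {H : SimpleGraph (Fin n)} (hH : H.Connected) (u v : Fin n) {y : Fin n → ℤ}
    (hy : bal y) (k : ℤ) : ∃ j, j < k ∧ -1 ≤ sp H u v (y - j • ev u v) := by
  by_contra hcon
  push Not at hcon
  have hb : ∀ j : ℤ, bal (y - j • ev u v) := fun j => hy.sub ((bal_ev u v).smul j)
  have key : ∀ N : ℕ, nu H (y - (k - N) • ev u v) ≤ nu H (y - k • ev u v) - 2 * N + 2 := by
    intro N
    induction N with
    | zero => simp
    | succ N ih =>
      rcases Nat.eq_zero_or_pos N with hN | hN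
      · subst hN
        have h1 := hcon (k - 1) (by omega)
        by_contra hlt
        push Not at hlt
        -- use convexity: slopes are monotone
        have h2 := sm_le_sp hH (hb (k - 1)) u v
        have e : y - (k - 1) • ev u v - ev u v = y - k • ev u v := by module
        rw [e] at h2
        unfold sp at h1 h2
        have e2 : y - k • ev u v + ev u v = y - (k - 1) • ev u v := by module
        rw [e2] at h2
        have e3 : ((0 + 1 : ℕ) : ℤ) = 1 := rfl
        rw [e3] at hlt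
        omega
      · have h1 := hcon (k - N) (by omega)
        unfold sp at h1
        have e : y - (k - N) • ev u v + ev u v = y - (k - (N + 1 : ℕ)) • ev u v := by
          push_cast
          module
        rw [e] at h1
        push_cast at h1 ⊢
        omega
  have h1 := key (nu H (y - k • ev u v) + 3).toNat
  have h2 := nu_nonneg hH (hb (k - (nu H (y - k • ev u v) + 3).toNat))
  have h3 := Int.self_le_toNat (nu H (y - k • ev u v) + 3)
  have h4 := nu_nonneg hH (hb k)
  omega

/-- the series of the graph with an ear of length three, in terms of sign patterns -/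
theorem ear_patterns {G : SimpleGraph (Fin (n + 2))} {H : SimpleGraph (Fin n)} {u v : Fin n}
    (h : IsExt G H u v true true true) (hD : ∀ f, Lip H f → f u - f v ≤ 3 ∧ -3 ≤ f u - f v) :
    (1 - PowerSeries.X) ^ 3 * gf (nu G) {x | bal x} =
      ∑ a ∈ sgs, ∑ b ∈ sgs, ∑ c ∈ sgs, wt a * wt b * wt c *
        gfs (nu H) {y | y ∈ {y : Fin n → ℤ | bal y} ∧ NF (sm' H u v y) (sp H u v y) a b c} := by
  have hH := h.hconn
  have hLF : LFs (nu H) {y | bal y} := nu_LF hH
  have h0 : ∀ y ∈ {y : Fin n → ℤ | bal y}, 0 ≤ nu H y := fun y hy => nu_nonneg hH hy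
  rw [← gfs_patterns hLF h0 (fun y a b c => NF (sm' H u v y) (sp H u v y) a b c)
    (fun y a b c => NF_sign _ _ a b c)]
  congr 1
  have e0 : gf (nu G) {x | bal x} = gfs (nu G) {x | bal x} := rfl
  rw [e0]
  have bnd : ∀ y : Fin n → ℤ, bal y → sm' H u v y ≤ 3 ∧ -3 ≤ sp H u v y := by
    intro y hy
    obtain ⟨f, hf, _, hf3⟩ := sm_spec hH hy u v
    obtain ⟨g, hg, hg2⟩ := sp_spec hH hy u v
    rw [pr_ev] at hf3 hg2
    have k1 := (hD f hf.1).1
    have k2 := (hD g hg.1).2
    unfold sm'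
    constructor <;> omega
  have sh : ∀ (y : Fin n → ℤ) (k : ℤ), sm' H u v (y - k • ev u v) = sp H u v (y - (k + 1) • ev u v) := by
    intro y k
    unfold sm'
    congr 1
    module
  refine gfs_image (Psi u v) ?_ ?_ ?_
  · rintro ⟨⟨⟨y, a⟩, b⟩, c⟩ ⟨hy, hn⟩ ⟨⟨⟨y', a'⟩, b'⟩, c'⟩ ⟨hy', hn'⟩ heq
    have hy : bal y := hy
    have hy' : bal y' := hy'
    have hn : NF (sm' H u v y) (sp H u v y) a b c := hn
    have hn' : NF (sm' H u v y') (sp H u v y') a' b' c' := hn'
    obtain ⟨e1, e2, e3⟩ := Psi_inj heq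
    have e1' : y = y' + (a' - a) • ev u v := by rw [e1]; module
    have conv : ∀ (y y' : Fin n → ℤ) (k : ℤ), bal y → 0 < k → y' = y - k • ev u v →
        sp H u v y' ≤ sm' H u v y := by
      intro y y' k hy hk hyy
      have hmono : ∀ N : ℕ, sp H u v (y - ((N : ℤ) + 1) • ev u v) ≤ sm' H u v y := by
        intro N
        induction N with
        | zero =>
          unfold sm'
          simp
        | succ N ih =>
          refine le_trans ?_ ih
          have hb : bal (y - ((N : ℤ) + 1) • ev u v) := hy.sub ((bal_ev u v).smul _)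
          have := sm_le_sp hH hb u v
          have e : y - ((N : ℤ) + 1) • ev u v - ev u v = y - (((N + 1 : ℕ) : ℤ) + 1) • ev u v := by
            push_cast
            module
          rwa [e] at this
      have := hmono (k - 1).toNat
      have e : (((k - 1).toNat : ℤ) + 1) = k := by omega
      rw [e] at this
      rw [hyy]; exact this
    rcases lt_trichotomy (a' - a) 0 with hk | hk | hk
    · exfalso
      exact NF_unique (k := -(a' - a)) (by omega) (sm'_le hH u v hy') (sm'_le hH u v hy)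
        (conv y' y (-(a' - a)) hy' (by omega) (by rw [e1']; module)) (by ring) (by rw [e2]; ring)
        (by rw [e3]; ring) hn' hn
    · have ha : a' = a := by omega
      subst ha
      rw [sub_self] at e1 e2 e3
      rw [zero_smul, sub_zero] at e1
      rw [add_zero] at e2 e3
      rw [e1, e2, e3]
    · exfalso
      exact NF_unique (k := a' - a) hk (sm'_le hH u v hy) (sm'_le hH u v hy')
        (conv y y' (a' - a) hy hk e1) (by ring) e2 e3 hn hn'
  · intro x
    constructor
    · intro hx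
      obtain ⟨y, a, b, c, rfl⟩ := Psi_surj u v x
      have hy : bal y := (bal_Psi u v _).1 hx
      have hb : ∀ j : ℤ, bal (y - j • ev u v) := fun j => hy.sub ((bal_ev u v).smul j)
      obtain ⟨k, hk⟩ := NF_exists (τ := fun k => sp H u v (y - k • ev u v))
        (fun k => by
          have := sm_le_sp hH (hb k) u v
          have e : y - k • ev u v - ev u v = y - (k + 1) • ev u v := by module
          rwa [e] at this)
        (fun k => slope_small hH u v hy k) (fun k => slope_large hH u v hy k) a b c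
      refine ⟨(((y - k • ev u v, a + k), b + k), c + k), ⟨hb k, ?_⟩, Psi_shift u v y a b c k⟩
      simp only
      rw [sh]
      exact hk
    · rintro ⟨z, ⟨hz, _⟩, rfl⟩
      exact (bal_Psi u v z).2 hz
  · rintro ⟨⟨⟨y, a⟩, b⟩, c⟩ ⟨hy, hn⟩
    have hy : bal y := hy
    have hn : NF (sm' H u v y) (sp H u v y) a b c := hn
    have hval : addc3 (nu H) (((y, a), b), c) = nu H y + |a| + |b| + |c| := rfl
    rw [hval]
    apply le_antisymm
    · exact h.le hy (Or.inl rfl) (Or.inl rfl) (Or.inl rfl)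
    · obtain ⟨k1, k2⟩ := bnd y hy
      obtain ⟨δ, d1, d2, d3, d4⟩ := NF_slope (sm'_le hH u v hy) k1 k2 hn
      obtain ⟨f, hf, hf2⟩ := exists_slope hH u v hy d1 d2
      obtain ⟨x1, x2, x3, m1, m2, m3, m4⟩ := slope_split d3 d4
      obtain ⟨n1, n1'⟩ := slope_mul m2
      obtain ⟨n2, n2'⟩ := slope_mul m3
      obtain ⟨n3, n3'⟩ := slope_mul m4
      exact h.ge hy hf (by rw [m1, hf2]) (fun _ => n1') (fun _ => n2') (fun _ => n3') n1 n2 n3

end Pool.Agent.J6H66.SEP
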