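import Pool.Agent.R135.SEPDefs

/-!
# Gamma polynomials, graphs given by lists of edges
-/

set_option autoImplicit false

namespace Pool.Agent.J6H66.SEP

/-- `g` is the gamma polynomial of the palindromic polynomial `h` (given as a power series) with
centre `d/2`: the degree of `g` is at most `d/2`, and
`h = ∑_{j ≤ d/2} g_j t^j (1 + t)^{d - 2j}`. -/
def IsGamma (d : ℕ) (h : PowerSeries ℤ) (g : Polynomial ℤ) : Prop :=
  g.natDegree ≤ d / 2 ∧ h = ∑ j ∈ Finset.range (d / 2 + 1),
    (g.coeff j : PowerSeries ℤ) * PowerSeries.X ^ j * (1 + PowerSeries.X) ^ (d - 2 * j)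

open Classical in
/-- The gamma polynomial of `h` (it is unique; the value is `0` if there is none). -/
noncomputable def gammaPoly (d : ℕ) (h : PowerSeries ℤ) : Polynomial ℤ :=
  if H : ∃ g, IsGamma d h g then H.choose else 0

/-- The graph on `Fin n` whose edges are the listed pairs. -/
def ofList (n : ℕ) (L : List (ℕ × ℕ)) : SimpleGraph (Fin n) where
  Adj a b := a ≠ b ∧ ((a.1, b.1) ∈ L ∨ (b.1, a.1) ∈ L)
  symm := ⟨fun _ _ h => ⟨h.1.symm, h.2.symm⟩⟩
  loopless := ⟨fun _ h => h.1 rfl⟩

end Pool.Agent.J6H66.SEP
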