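import Pool.Agent.J6H66.SEP.Ear

/-!
# The recursions for a path of length three
-/

set_option autoImplicit false
open Finset

namespace Pool.Agent.J6H66.SEP

open Pool.Agent.R135.SEP

variable {n : ℕ}

/-- the five regions -/
def rMid (H : SimpleGraph (Fin n)) (u v : Fin n) : Set (Fin n → ℤ) :=
  {y | bal y ∧ sm' H u v y ≤ 1 ∧ -1 ≤ sp H u v y}
def rP (H : SimpleGraph (Fin n)) (u v : Fin n) : Set (Fin n → ℤ) :=
  {y | bal y ∧ sm' H u v y ≤ 1 ∧ 2 ≤ sp H u v y}
def rR (H : SimpleGraph (Fin n)) (u v : Fin n) : Set (Fin n → ℤ) :=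
  {y | bal y ∧ 2 ≤ sm' H u v y}
def rQ (H : SimpleGraph (Fin n)) (u v : Fin n) : Set (Fin n → ℤ) :=
  {y | bal y ∧ sm' H u v y ≤ -2 ∧ -1 ≤ sp H u v y}
def rL (H : SimpleGraph (Fin n)) (u v : Fin n) : Set (Fin n → ℤ) :=
  {y | bal y ∧ sp H u v y ≤ -2}

/-- patterns -/
def p1 (a b c : ℤ) : Prop := (a ≤ 0 ∨ b ≤ 0) ∧ (a ≤ 0 ∨ c ≤ 0) ∧ (b ≤ 0 ∨ c ≤ 0) ∧ (0 ≤ a ∨ 0 ≤ b) ∧
    (0 ≤ a ∨ 0 ≤ c) ∧ (0 ≤ b ∨ 0 ≤ c)
def p2 (a b c : ℤ) : Prop :=
  (0 < a ∧ 0 < b ∧ c ≤ 0) ∨ (0 < a ∧ b ≤ 0 ∧ 0 < c) ∨ (a ≤ 0 ∧ 0 < b ∧ 0 < c)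
def p3 (a b c : ℤ) : Prop := 0 ≤ a ∧ 0 ≤ b ∧ 0 ≤ c ∧ (a = 0 ∨ b = 0 ∨ c = 0)
def p4 (a b c : ℤ) : Prop :=
  (a < 0 ∧ b < 0 ∧ 0 ≤ c) ∨ (a < 0 ∧ 0 ≤ b ∧ c < 0) ∨ (0 ≤ a ∧ b < 0 ∧ c < 0)
def p5 (a b c : ℤ) : Prop := a ≤ 0 ∧ b ≤ 0 ∧ c ≤ 0 ∧ (a = 0 ∨ b = 0 ∨ c = 0)

instance (a b c : ℤ) : Decidable (p1 a b c) := by unfold p1; infer_instance
instance (a b c : ℤ) : Decidable (p2 a b c) := by unfold p2; infer_instance
instance (a b c : ℤ) : Decidable (p3 a b c) := by unfold p3; infer_instance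
instance (a b c : ℤ) : Decidable (p4 a b c) := by unfold p4; infer_instance
instance (a b c : ℤ) : Decidable (p5 a b c) := by unfold p5; infer_instance

theorem gfs_and {α : Type} (ν : α → ℤ) (S : Set α) (p : Prop) [Decidable p] :
    gfs ν {x | x ∈ S ∧ p} = if p then gfs ν S else 0 := by
  split_ifs with h
  · apply gfs_congr_set
    intro x
    simp [h]
  · rw [← gfs_empty ν]
    apply gfs_congr_set
    intro x
    simp [h]

theorem pattern_sum {H : SimpleGraph (Fin n)} (hH : H.Connected) (u v : Fin n) (a b c : ℤ) :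
    gfs (nu H) {y | y ∈ {y : Fin n → ℤ | bal y} ∧ NF (sm' H u v y) (sp H u v y) a b c} =
      (if p1 a b c then gfs (nu H) (rMid H u v) else 0) +
      (if p2 a b c then gfs (nu H) (rP H u v) else 0) +
      (if p3 a b c then gfs (nu H) (rR H u v) else 0) +
      (if p4 a b c then gfs (nu H) (rQ H u v) else 0) +
      (if p5 a b c then gfs (nu H) (rL H u v) else 0) := by
  have hLF : LFs (nu H) {y | bal y} := nu_LF hH
  rw [← gfs_and, ← gfs_and, ← gfs_and, ← gfs_and, ← gfs_and]
  have l1 : LFs (nu H) {x | x ∈ rMid H u v ∧ p1 a b c} := hLF.mono (fun x hx => hx.1.1)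
  have l2 : LFs (nu H) {x | x ∈ rP H u v ∧ p2 a b c} := hLF.mono (fun x hx => hx.1.1)
  have l3 : LFs (nu H) {x | x ∈ rR H u v ∧ p3 a b c} := hLF.mono (fun x hx => hx.1.1)
  have l4 : LFs (nu H) {x | x ∈ rQ H u v ∧ p4 a b c} := hLF.mono (fun x hx => hx.1.1)
  have l5 : LFs (nu H) {x | x ∈ rL H u v ∧ p5 a b c} := hLF.mono (fun x hx => hx.1.1)
  have uf : ∀ {S T : Set (Fin n → ℤ)}, LFs (nu H) S → LFs (nu H) T → LFs (nu H) (S ∪ T) := by
    intro S T hS hT m
    refine ((hS m).union (hT m)).subset ?_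
    rintro x ⟨h1 | h1, h2⟩
    · exact Or.inl ⟨h1, h2⟩
    · exact Or.inr ⟨h1, h2⟩
  have hs : ∀ y : Fin n → ℤ, bal y → sm' H u v y ≤ sp H u v y := fun y hy => sm'_le hH u v hy
  have x12 : ¬ (p1 a b c ∧ p2 a b c) := by unfold p1 p2; omega
  have x14 : ¬ (p1 a b c ∧ p4 a b c) := by unfold p1 p4; omega
  have x24 : ¬ (p2 a b c ∧ p4 a b c) := by unfold p2 p4; omega
  rw [← gfs_union l1 l2, ← gfs_union (uf l1 l2) l3, ← gfs_union (uf (uf l1 l2) l3) l4,
    ← gfs_union (uf (uf (uf l1 l2) l3) l4) l5]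
  · apply gfs_congr_set
    intro y
    constructor
    · rintro ⟨hy, h | h | h | h | h⟩
      · exact Or.inl (Or.inl (Or.inl (Or.inl ⟨⟨hy, h.1, h.2.1⟩, h.2.2⟩)))
      · exact Or.inl (Or.inl (Or.inl (Or.inr ⟨⟨hy, h.1, h.2.1⟩, h.2.2⟩)))
      · exact Or.inl (Or.inl (Or.inr ⟨⟨hy, h.1⟩, h.2⟩))
      · exact Or.inl (Or.inr ⟨⟨hy, h.1, h.2.1⟩, h.2.2⟩)
      · exact Or.inr ⟨⟨hy, h.1⟩, h.2⟩
    · rintro ((((h | h) | h) | h) | h)
      · exact ⟨h.1.1, Or.inl ⟨h.1.2.1, h.1.2.2, h.2⟩⟩
      · exact ⟨h.1.1, Or.inr (Or.inl ⟨h.1.2.1, h.1.2.2, h.2⟩)⟩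
      · exact ⟨h.1.1, Or.inr (Or.inr (Or.inl ⟨h.1.2, h.2⟩))⟩
      · exact ⟨h.1.1, Or.inr (Or.inr (Or.inr (Or.inl ⟨h.1.2.1, h.1.2.2, h.2⟩)))⟩
      · exact ⟨h.1.1, Or.inr (Or.inr (Or.inr (Or.inr ⟨h.1.2, h.2⟩)))⟩
  · rw [Set.disjoint_left]
    intro y hy hy'
    have h5 : sp H u v y ≤ -2 := hy'.1.2
    have h6 := hs y hy'.1.1
    rcases hy with ((h | h) | h) | h
    · have := h.1.2.2; omega
    · have := h.1.2.2; omega
    · have : 2 ≤ sm' H u v y := h.1.2
      omega
    · have := h.1.2.2; omega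
  · rw [Set.disjoint_left]
    intro y hy hy'
    have h5 : sm' H u v y ≤ -2 := hy'.1.2.1
    rcases hy with (h | h) | h
    · exact x14 ⟨h.2, hy'.2⟩
    · exact x24 ⟨h.2, hy'.2⟩
    · have : 2 ≤ sm' H u v y := h.1.2
      omega
  · rw [Set.disjoint_left]
    intro y hy hy'
    have h5 : 2 ≤ sm' H u v y := hy'.1.2
    rcases hy with h | h
    · have := h.1.2.1; omega
    · have := h.1.2.1; omega
  · rw [Set.disjoint_left]
    intro y hy hy'
    exact x12 ⟨hy.2, hy'.2⟩

theorem sum_sgs {M : Type} [AddCommMonoid M] (f : ℤ → M) : ∑ a ∈ sgs, f a = f (-1) + f 0 + f 1 := by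
  unfold sgs
  rw [sum_insert (by decide), sum_insert (by decide), sum_singleton, add_assoc]

/-- the series of the graph with an ear, in terms of regions -/
theorem ear_regions {G : SimpleGraph (Fin (n + 2))} {H : SimpleGraph (Fin n)} {u v : Fin n}
    (h : IsExt G H u v true true true) (hD : ∀ f, Lip H f → f u - f v ≤ 3 ∧ -3 ≤ f u - f v) :
    (1 - PowerSeries.X) ^ 3 * gf (nu G) {x | bal x} =
      (1 - PowerSeries.X) * (1 + 4 * PowerSeries.X + PowerSeries.X ^ 2) * gfs (nu H) (rMid H u v) +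
      (1 - PowerSeries.X) * (1 + PowerSeries.X + PowerSeries.X ^ 2) *
        (gfs (nu H) (rR H u v) + gfs (nu H) (rL H u v)) +
      3 * PowerSeries.X ^ 2 * (gfs (nu H) (rP H u v) + gfs (nu H) (rQ H u v)) := by
  rw [ear_patterns h hD]
  simp only [pattern_sum h.hconn]
  simp only [sum_sgs]
  have w0 : wt 0 = 1 - PowerSeries.X := by unfold wt; simp
  have w1 : wt 1 = PowerSeries.X := by unfold wt; simp
  have w2 : wt (-1) = PowerSeries.X := by unfold wt; simp
  rw [w0, w1, w2]
  simp only [p1, p2, p3, p4, p5]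
  norm_num
  ring

/-- adding an edge -/
theorem edge_regions {G H : SimpleGraph (Fin n)} {u v : Fin n} (h : Del G H u v)
    (hH : H.Connected) :
    (1 - PowerSeries.X) * gf (nu G) {x | bal x} =
      (1 - PowerSeries.X) * gfs (nu H) (rMid H u v) +
      PowerSeries.X * (gfs (nu H) (rP H u v) + gfs (nu H) (rQ H u v)) := by
  have hG := h.connected hH
  have hLF : LFs (nu G) {y | bal y} := nu_LF hG
  have hs : ∀ y : Fin n → ℤ, bal y → sm' H u v y ≤ sp H u v y := fun y hy => sm'_le hH u v hy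
  have e0 : gf (nu G) {x | bal x} = gfs (nu G) {x | bal x} := rfl
  have m1 : gfs (nu G) (rMid H u v) = gfs (nu H) (rMid H u v) := by
    refine (gfs_image id (Set.injOn_id _) (fun y => ?_) ?_)
    · constructor
      · intro hy; exact ⟨y, hy, rfl⟩
      · rintro ⟨x, hx, rfl⟩; exact hx
    · intro y hy
      change nu G y = nu H y
      exact h.middle hH hy.1 hy.2.1 hy.2.2
  have m2 : gfs (nu G) (rP H u v) = gfs (nu H) (rP H u v) := by
    refine (gfs_image id (Set.injOn_id _) (fun y => ?_) ?_)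
    · constructor
      · intro hy; exact ⟨y, hy, rfl⟩
      · rintro ⟨x, hx, rfl⟩; exact hx
    · intro y hy
      change nu G y = nu H y
      exact h.middle hH hy.1 hy.2.1 (by have := hy.2.2; omega)
  have m3 : gfs (nu G) (rQ H u v) = gfs (nu H) (rQ H u v) := by
    refine (gfs_image id (Set.injOn_id _) (fun y => ?_) ?_)
    · constructor
      · intro hy; exact ⟨y, hy, rfl⟩
      · rintro ⟨x, hx, rfl⟩; exact hx
    · intro y hy
      change nu G y = nu H y
      exact h.middle hH hy.1 (by have := hy.2.1; unfold sm' at this; omega) hy.2.2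
  have lM : LFs (nu G) (rMid H u v) := hLF.mono (fun x hx => hx.1)
  have lP : LFs (nu G) (rP H u v) := hLF.mono (fun x hx => hx.1)
  have lQ : LFs (nu G) (rQ H u v) := hLF.mono (fun x hx => hx.1)
  have lR : LFs (nu G) (rR H u v) := hLF.mono (fun x hx => hx.1)
  have lL : LFs (nu G) (rL H u v) := hLF.mono (fun x hx => hx.1)
  -- the right region
  have s1 : gfs (nu G) (rR H u v) =
      PowerSeries.X * (gfs (nu G) (rP H u v) + gfs (nu G) (rR H u v)) := by
    rw [← gfs_union lP lR (by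
      rw [Set.disjoint_left]
      intro y hy hy'
      have := hy.2.1
      have := hy'.2
      omega)]
    have := gf_bij (ν := nu G) (ν' := nu G) (S := rP H u v ∪ rR H u v) (T := rR H u v)
      (fun x => x + ev u v) 1 (fun a b hab => by simpa using hab) (by
        intro y
        constructor
        · rintro ⟨hy, hy2⟩
          refine ⟨y - ev u v, ?_, by simp⟩
          have hb : bal (y - ev u v) := hy.sub (bal_ev u v)
          have hy2' : 2 ≤ sp H u v (y - ev u v) := hy2
          by_cases h1 : sm' H u v (y - ev u v) ≤ 1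
          · left; exact ⟨hb, h1, hy2'⟩
          · right; exact ⟨hb, by omega⟩
        · rintro ⟨x, hx | hx, rfl⟩
          · refine ⟨hx.1.add (bal_ev u v), ?_⟩
            unfold sm'
            rw [add_sub_cancel_right]
            exact hx.2.2
          · refine ⟨hx.1.add (bal_ev u v), ?_⟩
            unfold sm'
            rw [add_sub_cancel_right]
            exact le_trans hx.2 (hs x hx.1)) (by
        intro x hx
        have hxb : bal x := by
          rcases hx with hx | hx
          · exact hx.1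
          · exact hx.1
        have h2 : 2 ≤ sp H u v x := by
          rcases hx with hx | hx
          · exact hx.2.2
          · exact le_trans hx.2 (hs x hx.1)
        have := h.right hH (x := x + ev u v) (hxb.add (bal_ev u v)) (by
          rw [add_sub_cancel_right]; exact h2)
        rw [add_sub_cancel_right] at this
        exact this) (by
        intro x hx
        rcases hx with hx | hx
        · exact nu_nonneg hG hx.1
        · exact nu_nonneg hG hx.1)
    rw [pow_one] at this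
    exact this
  -- the left region, by symmetry
  have hneg : ∀ y : Fin n → ℤ, bal y → sm' H u v (-y) = - sp H u v y := by
    intro y hy
    unfold sm'
    have e : -y - ev u v = -(y + ev u v) := by abel
    rw [e, sp_neg hH (hy.add (bal_ev u v)), add_sub_cancel_right]
  have hneg' : ∀ y : Fin n → ℤ, bal y → sp H u v (-y) = - sm' H u v y := by
    intro y hy
    rw [sp_neg hH hy]
    rfl
  have s2 : gfs (nu G) (rL H u v) = gfs (nu G) (rR H u v) := by
    refine gfs_image (fun x => -x) (fun a _ b _ hab => by simpa using hab) (fun y => ?_) ?_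
    · constructor
      · rintro ⟨hy, hy2⟩
        refine ⟨-y, ⟨hy.neg, ?_⟩, by simp⟩
        rw [hneg y hy]; omega
      · rintro ⟨x, ⟨hx, hx2⟩, rfl⟩
        refine ⟨hx.neg, ?_⟩
        rw [hneg' x hx]; omega
    · intro x hx
      exact nu_neg hG hx.1
  have s3 : gfs (nu G) (rQ H u v) = gfs (nu G) (rP H u v) := by
    refine gfs_image (fun x => -x) (fun a _ b _ hab => by simpa using hab) (fun y => ?_) ?_
    · constructor
      · rintro ⟨hy, hy2, hy3⟩
        refine ⟨-y, ⟨hy.neg, ?_, ?_⟩, by simp⟩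
        · rw [hneg y hy]; omega
        · rw [hneg' y hy]; omega
      · rintro ⟨x, ⟨hx, hx2, hx3⟩, rfl⟩
        refine ⟨hx.neg, ?_, ?_⟩
        · rw [hneg x hx]; omega
        · rw [hneg' x hx]; omega
    · intro x hx
      exact nu_neg hG hx.1
  have hall : gf (nu G) {x | bal x} = gfs (nu G) (rMid H u v) + gfs (nu G) (rR H u v) +
      gfs (nu G) (rL H u v) := by
    rw [e0, ← gfs_union lM lR (by
      rw [Set.disjoint_left]
      intro y hy hy'
      have := hy.2.1
      have := hy'.2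
      omega), ← gfs_union (hLF.mono (by
        rintro x (hx | hx)
        · exact hx.1
        · exact hx.1)) lL (by
      rw [Set.disjoint_left]
      rintro y (hy | hy) hy'
      · have := hy.2.2
        have := hy'.2
        omega
      · have := hy.2
        have := hy'.2
        have := hs y hy.1
        omega)]
    apply gfs_congr_set
    intro y
    constructor
    · intro hy
      have hy : bal y := hy
      by_cases h1 : 2 ≤ sm' H u v y
      · left; right; exact ⟨hy, h1⟩
      · by_cases h2 : sp H u v y ≤ -2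
        · right; exact ⟨hy, h2⟩
        · left; left; exact ⟨hy, by omega, by omega⟩
    · rintro ((hy | hy) | hy)
      · exact hy.1
      · exact hy.1
      · exact hy.1
  rw [hall, s2, ← m2, ← m3, s3, ← m1]
  linear_combination 2 * s1

/-- all balanced vectors -/
theorem all_regions {H : SimpleGraph (Fin n)} (hH : H.Connected) (u v : Fin n) :
    gf (nu H) {x | bal x} = gfs (nu H) (rMid H u v) + gfs (nu H) (rR H u v) +
      gfs (nu H) (rL H u v) := by
  have hLF : LFs (nu H) {y | bal y} := nu_LF hH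
  have hs : ∀ y : Fin n → ℤ, bal y → sm' H u v y ≤ sp H u v y := fun y hy => sm'_le hH u v hy
  have e0 : gf (nu H) {x | bal x} = gfs (nu H) {x | bal x} := rfl
  have lM : LFs (nu H) (rMid H u v) := hLF.mono (fun x hx => hx.1)
  have lR : LFs (nu H) (rR H u v) := hLF.mono (fun x hx => hx.1)
  have lL : LFs (nu H) (rL H u v) := hLF.mono (fun x hx => hx.1)
  rw [e0, ← gfs_union lM lR (by
    rw [Set.disjoint_left]
    intro y hy hy'
    have := hy.2.1
    have := hy'.2
    omega), ← gfs_union (hLF.mono (by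
      rintro x (hx | hx)
      · exact hx.1
      · exact hx.1)) lL (by
    rw [Set.disjoint_left]
    rintro y (hy | hy) hy'
    · have := hy.2.2
      have := hy'.2
      omega
    · have := hy.2
      have := hy'.2
      have := hs y hy.1
      omega)]
  apply gfs_congr_set
  intro y
  constructor
  · intro hy
    have hy : bal y := hy
    by_cases h1 : 2 ≤ sm' H u v y
    · left; right; exact ⟨hy, h1⟩
    · by_cases h2 : sp H u v y ≤ -2
      · right; exact ⟨hy, h2⟩
      · left; left; exact ⟨hy, by omega, by omega⟩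
  · rintro ((hy | hy) | hy)
    · exact hy.1
    · exact hy.1
    · exact hy.1

/-- **The recursion for an ear of length three.** -/
theorem ear_rec {G : SimpleGraph (Fin (n + 2))} {H H' : SimpleGraph (Fin n)} {u v : Fin n}
    (h : IsExt G H u v true true true) (hD : ∀ f, Lip H f → f u - f v ≤ 3 ∧ -3 ≤ f u - f v)
    (h' : Del H' H u v) :
    (1 - PowerSeries.X) ^ 2 * gf (nu G) {x | bal x} =
      (1 + PowerSeries.X + PowerSeries.X ^ 2) * gf (nu H) {x | bal x} +
      3 * PowerSeries.X * gf (nu H') {x | bal x} := by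
  have e1 := ear_regions h hD
  have e2 := edge_regions h' h.hconn
  have e3 := all_regions h.hconn u v
  have hne : (1 - PowerSeries.X : PowerSeries ℤ) ≠ 0 := by
    intro h0
    have := congrArg (PowerSeries.coeff 0) h0
    simp at this
  apply mul_left_cancel₀ hne
  linear_combination e1 - (1 - PowerSeries.X) * (1 + PowerSeries.X + PowerSeries.X ^ 2) * e3 -
    3 * PowerSeries.X * e2

end Pool.Agent.J6H66.SEP
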