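import Pool.Agent.J6H66.SEP.Base
import Pool.Agent.J6H66.SEP.Rec
import Pool.Agent.J6H66.SEP.Broken

/-!
# Attaching paths of length three to a graph on five vertices
-/

set_option autoImplicit false
open Finset

namespace Pool.Agent.J6H66.SEP

open Pool.Agent.R135.SEP

/-- the new edges, when a path of length three is attached at `s.1` and `s.2.1` to a graph on
`n` vertices; the edge number `s.2.2` (if it is `1`, `2` or `3`) is left out -/
def ear (n : ℕ) (s : ℕ × ℕ × ℕ) : List (ℕ × ℕ) :=
  (bif Nat.beq s.2.2 1 then [] else [(s.1, n)]) ++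
    ((bif Nat.beq s.2.2 2 then [] else [(n, n + 1)]) ++
      (bif Nat.beq s.2.2 3 then [] else [(n + 1, s.2.1)]))

/-- number of vertices -/
def nn : List (ℕ × ℕ × ℕ) → ℕ
  | [] => 5
  | _ :: st => nn st + 2

/-- the edge list -/
def real (L : List (ℕ × ℕ)) : List (ℕ × ℕ × ℕ) → List (ℕ × ℕ)
  | [] => L
  | s :: st => ear (nn st) s ++ real L st

theorem nn_eq (st : List (ℕ × ℕ × ℕ)) : nn st = 5 + 2 * st.length := by
  induction st with
  | nil => rfl
  | cons s st ih => rw [nn, ih, List.length_cons]; ring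

/-- all the entries are smaller than `n` -/
def Bd (n : ℕ) (L : List (ℕ × ℕ)) : Prop := ∀ e ∈ L, e.1 < n ∧ e.2 < n

theorem mem_ear {n : ℕ} {s : ℕ × ℕ × ℕ} {e : ℕ × ℕ} : e ∈ ear n s ↔
    (s.2.2 ≠ 1 ∧ e = (s.1, n)) ∨ (s.2.2 ≠ 2 ∧ e = (n, n + 1)) ∨
      (s.2.2 ≠ 3 ∧ e = (n + 1, s.2.1)) := by
  have h : ∀ (k : ℕ) (x : ℕ × ℕ), e ∈ (bif Nat.beq s.2.2 k then [] else [x]) ↔
      s.2.2 ≠ k ∧ e = x := by
    intro k x
    by_cases hk : s.2.2 = k
    · subst hk; simp
    · have : Nat.beq s.2.2 k = false := by rw [← Bool.not_eq_true, Nat.beq_eq]; exact hk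
      rw [this, cond_false, List.mem_singleton]
      simp [hk]
  unfold ear
  rw [List.mem_append, List.mem_append, h, h, h]

theorem lip_gr {n : ℕ} {L : List (ℕ × ℕ)} {f : Fin n → ℤ} :
    Lip (gr n L) f ↔ ∀ a b : Fin n, ((a : ℕ), (b : ℕ)) ∈ L → -1 ≤ f a - f b ∧ f a - f b ≤ 1 := by
  constructor
  · intro h a b hab
    by_cases hne : a = b
    · subst hne; simp
    · have h1 : (gr n L).Adj a b := by
        rw [gr_adj, adjB_iff]
        exact ⟨fun e => hne (Fin.ext e), Or.inl hab⟩
      have h2 := h a b h1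
      have h3 := h b a h1.symm
      constructor <;> linarith
  · intro h a b hab
    rw [gr_adj, adjB_iff] at hab
    rcases hab.2 with h1 | h1
    · exact (h a b h1).2
    · have := (h b a h1).1
      linarith

theorem em_val {n : ℕ} (i : Fin n) : ((em i : Fin (n + 2)) : ℕ) = i := rfl

theorem pv_val (n : ℕ) : ((pv n : Fin (n + 2)) : ℕ) = n := rfl

theorem qv_val (n : ℕ) : ((qv n : Fin (n + 2)) : ℕ) = n + 1 := rfl

section ext

variable {n : ℕ} {M : List (ℕ × ℕ)} {s : ℕ × ℕ × ℕ} {u v : Fin n}

theorem ext_lip (hM : Bd n M) (hu : s.1 = u) (hv : s.2.1 = v) (f : Fin (n + 2) → ℤ) :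
    Lip (gr (n + 2) (ear n s ++ M)) f ↔ Lip (gr n M) (fun i => f (em i)) ∧
    ((!(Nat.beq s.2.2 1)) = true → -1 ≤ f (em u) - f (pv n) ∧ f (em u) - f (pv n) ≤ 1) ∧
    ((!(Nat.beq s.2.2 2)) = true → -1 ≤ f (pv n) - f (qv n) ∧ f (pv n) - f (qv n) ≤ 1) ∧
    ((!(Nat.beq s.2.2 3)) = true → -1 ≤ f (qv n) - f (em v) ∧ f (qv n) - f (em v) ≤ 1) := by
  have hb : ∀ k, (!(Nat.beq s.2.2 k)) = true ↔ s.2.2 ≠ k := by
    intro k
    rw [Bool.not_eq_true', ← Bool.not_eq_true, Nat.beq_eq]
  rw [hb, hb, hb, lip_gr, lip_gr]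
  constructor
  · intro h
    refine ⟨?_, ?_, ?_, ?_⟩
    · intro a b hab
      exact h (em a) (em b) (List.mem_append_right _ hab)
    · intro hk
      apply h
      rw [em_val, pv_val, List.mem_append, mem_ear]
      exact Or.inl (Or.inl ⟨hk, by rw [hu]⟩)
    · intro hk
      apply h
      rw [pv_val, qv_val, List.mem_append, mem_ear]
      exact Or.inl (Or.inr (Or.inl ⟨hk, rfl⟩))
    · intro hk
      apply h
      rw [em_val, qv_val, List.mem_append, mem_ear]
      exact Or.inl (Or.inr (Or.inr ⟨hk, by rw [hv]⟩))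
  · rintro ⟨h1, h2, h3, h4⟩ a b hab
    rw [List.mem_append, mem_ear] at hab
    rcases hab with (⟨hk, he⟩ | ⟨hk, he⟩ | ⟨hk, he⟩) | hab
    · rw [Prod.mk.injEq] at he
      have ha : a = em u := Fin.ext (by rw [em_val, he.1, hu])
      have hb' : b = pv n := Fin.ext (by rw [pv_val, he.2])
      rw [ha, hb']
      exact h2 hk
    · rw [Prod.mk.injEq] at he
      have ha : a = pv n := Fin.ext (by rw [pv_val, he.1])
      have hb' : b = qv n := Fin.ext (by rw [qv_val, he.2])
      rw [ha, hb']
      exact h3 hk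
    · rw [Prod.mk.injEq] at he
      have ha : a = qv n := Fin.ext (by rw [qv_val, he.1])
      have hb' : b = em v := Fin.ext (by rw [em_val, he.2, hv])
      rw [ha, hb']
      exact h4 hk
    · obtain ⟨ha, hb'⟩ : (a : ℕ) < n ∧ (b : ℕ) < n := hM _ hab
      exact h1 ⟨a, ha⟩ ⟨b, hb'⟩ hab

theorem ext_conn (hH : (gr n M).Connected) (hu : s.1 = u) (hv : s.2.1 = v) :
    (gr (n + 2) (ear n s ++ M)).Connected := by
  have hadj : ∀ a b : Fin (n + 2), a ≠ b → ((a : ℕ), (b : ℕ)) ∈ ear n s →
      (gr (n + 2) (ear n s ++ M)).Adj a b := by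
    intro a b hne hab
    rw [gr_adj, adjB_iff]
    exact ⟨fun e => hne (Fin.ext e), Or.inl (List.mem_append_left _ hab)⟩
  have h1 : s.2.2 ≠ 1 → (gr (n + 2) (ear n s ++ M)).Adj (em u) (pv n) := by
    intro hk
    apply hadj
    · intro e
      have := congrArg Fin.val e
      rw [em_val, pv_val] at this
      have := u.2
      omega
    · rw [em_val, pv_val, mem_ear]
      exact Or.inl ⟨hk, by rw [hu]⟩
  have h2 : s.2.2 ≠ 2 → (gr (n + 2) (ear n s ++ M)).Adj (pv n) (qv n) := by
    intro hk
    apply hadj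
    · intro e
      have := congrArg Fin.val e
      rw [qv_val, pv_val] at this
      omega
    · rw [qv_val, pv_val, mem_ear]
      exact Or.inr (Or.inl ⟨hk, rfl⟩)
  have h3 : s.2.2 ≠ 3 → (gr (n + 2) (ear n s ++ M)).Adj (qv n) (em v) := by
    intro hk
    apply hadj
    · intro e
      have := congrArg Fin.val e
      rw [em_val, qv_val] at this
      have := v.2
      omega
    · rw [em_val, qv_val, mem_ear]
      exact Or.inr (Or.inr ⟨hk, by rw [hv]⟩)
  have hhom : ∀ a b : Fin n, (gr n M).Adj a b → (gr (n + 2) (ear n s ++ M)).Adj (em a) (em b) := by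
    intro a b hab
    rw [gr_adj, adjB_iff] at hab ⊢
    refine ⟨hab.1, ?_⟩
    rcases hab.2 with h4 | h4
    · exact Or.inl (List.mem_append_right _ h4)
    · exact Or.inr (List.mem_append_right _ h4)
  let F : gr n M →g gr (n + 2) (ear n s ++ M) := ⟨em, fun {a b} hab => hhom a b hab⟩
  have hr : ∀ i : Fin n, (gr (n + 2) (ear n s ++ M)).Reachable (em u) (em i) := by
    intro i
    exact (hH.preconnected u i).map F
  have hp : (gr (n + 2) (ear n s ++ M)).Reachable (em u) (pv n) := by
    by_cases hk : s.2.2 = 1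
    · exact ((hr v).trans (h3 (by omega)).symm.reachable).trans (h2 (by omega)).symm.reachable
    · exact (h1 hk).reachable
  have hq : (gr (n + 2) (ear n s ++ M)).Reachable (em u) (qv n) := by
    by_cases hk : s.2.2 = 3
    · exact (h1 (by omega)).reachable.trans (h2 (by omega)).reachable
    · exact (hr v).trans (h3 hk).symm.reachable
  have hall : ∀ x, (gr (n + 2) (ear n s ++ M)).Reachable (em u) x :=
    fin2_cases hr hp hq
  have : Nonempty (Fin (n + 2)) := ⟨em u⟩
  exact ⟨fun a b => (hall a).symm.trans (hall b)⟩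

theorem ext_isExt (hM : Bd n M) (hH : (gr n M).Connected) (hu : s.1 = u) (hv : s.2.1 = v) :
    IsExt (gr (n + 2) (ear n s ++ M)) (gr n M) u v (!(Nat.beq s.2.2 1)) (!(Nat.beq s.2.2 2))
      (!(Nat.beq s.2.2 3)) :=
  ⟨ext_conn hH hu hv, hH, ext_lip hM hu hv⟩

end ext

/-! ### lists of coefficients -/

theorem hom_nil : hom [] = 0 := rfl

theorem hom_cons (a : ℤ) (g : List ℤ) : hom (a :: g) =
    (a : PowerSeries ℤ) * ((1 + PowerSeries.X) ^ 2) ^ g.length + PowerSeries.X * hom g := rfl

theorem hom_add (g g' : List ℤ) (h : g.length = g'.length) :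
    hom (List.zipWith (fun a b => a + b) g g') = hom g + hom g' := by
  induction g generalizing g' with
  | nil =>
    have : g' = [] := List.eq_nil_of_length_eq_zero (by rw [← h]; rfl)
    subst this
    simp [hom_nil]
  | cons a g ih =>
    cases g' with
    | nil => simp at h
    | cons b g' =>
      rw [List.length_cons, List.length_cons, Nat.succ_inj] at h
      rw [List.zipWith_cons_cons, hom_cons, hom_cons, hom_cons, ih g' h, List.length_zipWith, ← h,
        min_self]
      push_cast
      ring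

theorem hom_lin (g g' : List ℤ) (h : g.length = g'.length) :
    hom (List.zipWith (fun a b => 3 * b - a) g g') = 3 * hom g' - hom g := by
  induction g generalizing g' with
  | nil =>
    have : g' = [] := List.eq_nil_of_length_eq_zero (by rw [← h]; rfl)
    subst this
    simp [hom_nil]
  | cons a g ih =>
    cases g' with
    | nil => simp at h
    | cons b g' =>
      rw [List.length_cons, List.length_cons, Nat.succ_inj] at h
      rw [List.zipWith_cons_cons, hom_cons, hom_cons, hom_cons, ih g' h, List.length_zipWith, ← h,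
        min_self]
      push_cast
      ring

theorem hom_snoc (g : List ℤ) : hom (g ++ [0]) = (1 + PowerSeries.X) ^ 2 * hom g := by
  induction g with
  | nil =>
    rw [List.nil_append, hom_cons, hom_nil]
    simp
  | cons a g ih =>
    rw [List.cons_append, hom_cons, hom_cons, ih, List.length_append, List.length_singleton]
    ring

theorem hom_zero (g : List ℤ) : hom (0 :: g) = PowerSeries.X * hom g := by
  rw [hom_cons]
  simp

/-- the recursion on lists -/
def comb (g g' : List ℤ) : List ℤ :=
  List.zipWith (fun a b => a + b) (g ++ [0]) (0 :: List.zipWith (fun a b => 3 * b - a) g g')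

theorem hom_comb (g g' : List ℤ) (h : g.length = g'.length) :
    hom (comb g g') = (1 + PowerSeries.X + PowerSeries.X ^ 2) * hom g +
      3 * PowerSeries.X * hom g' := by
  unfold comb
  rw [hom_add, hom_snoc, hom_zero, hom_lin g g' h]
  · ring
  · rw [List.length_append, List.length_singleton, List.length_cons, List.length_zipWith, ← h,
      min_self]

theorem comb_length (g g' : List ℤ) (h : g.length = g'.length) :
    (comb g g').length = g.length + 1 := by
  unfold comb
  rw [List.length_zipWith, List.length_append, List.length_singleton, List.length_cons,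
    List.length_zipWith, ← h, min_self, min_self]

/-- the recursion -/
def gam (lf : List (ℕ × ℕ) → Option (List ℤ)) : List (ℕ × ℕ × ℕ) → List (ℕ × ℕ) → Option (List ℤ)
  | [], L => lf L
  | s :: st, L =>
    bif Nat.beq s.2.2 0 then
      match gam lf st L with
      | none => none
      | some g =>
        match gam lf st ((s.1, s.2.1) :: L) with
        | none => none
        | some g' => some (comb g g')
    else
      bif Nat.ble s.2.2 3 then
        match gam lf st L with
        | none => none
        | some g => some (g ++ [0])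
      else none

/-- what we need from the leaves -/
def Good (L : List (ℕ × ℕ)) (st : List (ℕ × ℕ × ℕ)) (g : List ℤ) : Prop :=
  (1 - PowerSeries.X) ^ (4 + 2 * st.length) * gf (nu (gr (nn st) (real L st))) {x | bal x} =
    hom g ∧ g.length = 3 + st.length

theorem real_bd {L : List (ℕ × ℕ)} {st : List (ℕ × ℕ × ℕ)} (hL : Bd 5 L)
    (hst : ∀ s ∈ st, s.1 < 5 ∧ s.2.1 < 5) : Bd (nn st) (real L st) := by
  induction st with
  | nil => exact hL
  | cons s st ih =>
    have h1 := ih (fun s hs => hst s (List.mem_cons_of_mem _ hs))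
    have h2 := hst s List.mem_cons_self
    have h3 : 5 ≤ nn st := by rw [nn_eq]; omega
    intro e he
    change e ∈ ear (nn st) s ++ real L st at he
    change e.1 < nn st + 2 ∧ e.2 < nn st + 2
    rw [List.mem_append, mem_ear] at he
    rcases he with (⟨_, rfl⟩ | ⟨_, rfl⟩ | ⟨_, rfl⟩) | he
    · simp only; omega
    · simp only; omega
    · simp only; omega
    · have := h1 e he
      omega

theorem real_conn {L : List (ℕ × ℕ)} {st : List (ℕ × ℕ × ℕ)} (hL : (gr 5 L).Connected)
    (hst : ∀ s ∈ st, s.1 < 5 ∧ s.2.1 < 5) : (gr (nn st) (real L st)).Connected := by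
  induction st with
  | nil => exact hL
  | cons s st ih =>
    have h1 := ih (fun s hs => hst s (List.mem_cons_of_mem _ hs))
    have h2 := hst s List.mem_cons_self
    have h3 : 5 ≤ nn st := by rw [nn_eq]; omega
    exact ext_conn (u := ⟨s.1, by omega⟩) (v := ⟨s.2.1, by omega⟩) h1 rfl rfl

theorem mem_real_cons {L : List (ℕ × ℕ)} {st : List (ℕ × ℕ × ℕ)} {e x : ℕ × ℕ} :
    e ∈ real (x :: L) st ↔ e = x ∨ e ∈ real L st := by
  induction st with
  | nil => exact List.mem_cons
  | cons s st ih =>
    change e ∈ ear (nn st) s ++ real (x :: L) st ↔ e = x ∨ e ∈ ear (nn st) s ++ real L st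
    rw [List.mem_append, List.mem_append, ih]
    tauto

theorem mem_real {L : List (ℕ × ℕ)} {st : List (ℕ × ℕ × ℕ)} {e : ℕ × ℕ} (h : e ∈ L) :
    e ∈ real L st := by
  induction st with
  | nil => exact h
  | cons s st ih => exact List.mem_append_right _ ih

theorem real_del {L : List (ℕ × ℕ)} {st : List (ℕ × ℕ × ℕ)} {u v : Fin (nn st)} (huv : u ≠ v) :
    Del (gr (nn st) (real (((u : ℕ), (v : ℕ)) :: L) st)) (gr (nn st) (real L st)) u v := by
  constructor
  intro a b
  rw [gr_adj, gr_adj, adjB_iff, adjB_iff, mem_real_cons, mem_real_cons, Prod.mk.injEq,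
    Prod.mk.injEq]
  constructor
  · rintro ⟨h1, (h2 | h2) | (h2 | h2)⟩
    · exact Or.inr (Or.inl ⟨Fin.ext h2.1, Fin.ext h2.2⟩)
    · exact Or.inl ⟨h1, Or.inl h2⟩
    · exact Or.inr (Or.inr ⟨Fin.ext h2.2, Fin.ext h2.1⟩)
    · exact Or.inl ⟨h1, Or.inr h2⟩
  · rintro (⟨h1, h2 | h2⟩ | ⟨rfl, rfl⟩ | ⟨rfl, rfl⟩)
    · exact ⟨h1, Or.inl (Or.inr h2)⟩
    · exact ⟨h1, Or.inr (Or.inr h2)⟩
    · exact ⟨fun e => huv (Fin.ext e), Or.inl (Or.inl ⟨rfl, rfl⟩)⟩
    · exact ⟨fun e => huv (Fin.ext e.symm), Or.inr (Or.inl ⟨rfl, rfl⟩)⟩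

theorem lip_real {L : List (ℕ × ℕ)} {st : List (ℕ × ℕ × ℕ)} (h5 : 5 ≤ nn st)
    {f : Fin (nn st) → ℤ} (hf : Lip (gr (nn st) (real L st)) f) :
    Lip (gr 5 L) (fun i => f (Fin.castLE h5 i)) := by
  rw [lip_gr] at hf ⊢
  intro a b hab
  exact hf (Fin.castLE h5 a) (Fin.castLE h5 b) (mem_real hab)

theorem lip_cons {n : ℕ} {L : List (ℕ × ℕ)} {x : ℕ × ℕ} {f : Fin n → ℤ}
    (hf : Lip (gr n (x :: L)) f) : Lip (gr n L) f := by
  rw [lip_gr] at hf ⊢
  intro a b hab
  exact hf a b (List.mem_cons_of_mem _ hab)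

/-- the distances in the graph `L` between the endpoints of the steps are at most three -/
def Near (L : List (ℕ × ℕ)) (st : List (ℕ × ℕ × ℕ)) : Prop :=
  ∀ s ∈ st, ∃ (hu : s.1 < 5) (hv : s.2.1 < 5), s.1 ≠ s.2.1 ∧
    ∀ f, Lip (gr 5 L) f → f ⟨s.1, hu⟩ - f ⟨s.2.1, hv⟩ ≤ 3 ∧ -3 ≤ f ⟨s.1, hu⟩ - f ⟨s.2.1, hv⟩

theorem gam_spec {lf : List (ℕ × ℕ) → Option (List ℤ)}
    (hlf : ∀ L g, lf L = some g → (gr 5 L).Connected → Good L [] g) :
    ∀ (st : List (ℕ × ℕ × ℕ)) (L : List (ℕ × ℕ)) (g : List ℤ), Bd 5 L → (gr 5 L).Connected →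
      Near L st → gam lf st L = some g → Good L st g := by
  intro st
  induction st with
  | nil =>
    intro L g hL hc _ hg
    exact hlf L g hg hc
  | cons s st ih =>
    intro L g hL hc hN hg
    have hst : ∀ s ∈ st, s.1 < 5 ∧ s.2.1 < 5 := by
      intro s hs
      obtain ⟨hu, hv, _⟩ := hN s (List.mem_cons_of_mem _ hs)
      exact ⟨hu, hv⟩
    have hN' : Near L st := fun s hs => hN s (List.mem_cons_of_mem _ hs)
    obtain ⟨hu, hv, huv, hD⟩ := hN s List.mem_cons_self
    have h5 : 5 ≤ nn st := by rw [nn_eq]; omega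
    have hbd := real_bd hL hst
    have hconn := real_conn hc hst
    have hext := ext_isExt (s := s) (u := ⟨s.1, by omega⟩) (v := ⟨s.2.1, by omega⟩) hbd hconn rfl rfl
    rw [gam] at hg
    by_cases h0 : s.2.2 = 0
    · rw [h0] at hg
      simp only [Nat.beq_refl, cond_true] at hg
      cases hg1 : gam lf st L with
      | none => rw [hg1] at hg; simp at hg
      | some g1 =>
        cases hg2 : gam lf st ((s.1, s.2.1) :: L) with
        | none => rw [hg1, hg2] at hg; simp at hg
        | some g2 =>
          rw [hg1, hg2] at hg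
          simp only [Option.some.injEq] at hg
          subst hg
          obtain ⟨e1, e2⟩ := ih L g1 hL hc hN' hg1
          have hL' : Bd 5 ((s.1, s.2.1) :: L) := by
            intro e he
            rcases List.mem_cons.1 he with rfl | he
            · exact ⟨hu, hv⟩
            · exact hL e he
          have hc' : (gr 5 ((s.1, s.2.1) :: L)).Connected := by
            apply hc.mono
            intro a b hab
            rw [gr_adj, adjB_iff] at hab ⊢
            refine ⟨hab.1, ?_⟩
            rcases hab.2 with h4 | h4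
            · exact Or.inl (List.mem_cons_of_mem _ h4)
            · exact Or.inr (List.mem_cons_of_mem _ h4)
          have hN'' : Near ((s.1, s.2.1) :: L) st := by
            intro s' hs'
            obtain ⟨hu', hv', huv', hD'⟩ := hN' s' hs'
            exact ⟨hu', hv', huv', fun f hf => hD' f (lip_cons hf)⟩
          obtain ⟨e3, e4⟩ := ih _ g2 hL' hc' hN'' hg2
          rw [h0] at hext
          have e5 := ear_rec hext (fun f hf => hD _ (lip_real h5 hf))
            (real_del (L := L) (st := st) (u := ⟨s.1, by omega⟩) (v := ⟨s.2.1, by omega⟩)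
              (fun e => huv (congrArg Fin.val e)))
          constructor
          · rw [hom_comb g1 g2 (by rw [e2, e4]), ← e1, ← e3]
            rw [show 4 + 2 * (s :: st).length = (4 + 2 * st.length) + 2 by
              rw [List.length_cons]; ring, pow_add]
            rw [mul_assoc]
            change _ * ((1 - PowerSeries.X) ^ 2 * gf (nu (gr (nn st + 2)
              (ear (nn st) s ++ real L st))) {x | bal x}) = _
            rw [e5]
            ring
          · rw [comb_length g1 g2 (by rw [e2, e4]), e2, List.length_cons]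
            ring
    · have hb0 : Nat.beq s.2.2 0 = false := by rw [← Bool.not_eq_true, Nat.beq_eq]; exact h0
      rw [hb0, cond_false] at hg
      by_cases h3 : s.2.2 ≤ 3
      · rw [show Nat.ble s.2.2 3 = true by rw [Nat.ble_eq]; exact h3, cond_true] at hg
        cases hg1 : gam lf st L with
        | none => rw [hg1] at hg; simp at hg
        | some g1 =>
          rw [hg1] at hg
          simp only [Option.some.injEq] at hg
          subst hg
          obtain ⟨e1, e2⟩ := ih L g1 hL hc hN' hg1
          have e5 := broken_rec hext (by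
            have : s.2.2 = 1 ∨ s.2.2 = 2 ∨ s.2.2 = 3 := by omega
            rcases this with h | h | h <;> rw [h] <;> decide)
          constructor
          · rw [hom_snoc, ← e1]
            rw [show 4 + 2 * (s :: st).length = (4 + 2 * st.length) + 2 by
              rw [List.length_cons]; ring, pow_add]
            rw [mul_assoc]
            change _ * ((1 - PowerSeries.X) ^ 2 * gf (nu (gr (nn st + 2)
              (ear (nn st) s ++ real L st))) {x | bal x}) = _
            rw [e5]
            ring
          · rw [List.length_append, List.length_singleton, e2, List.length_cons]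
            ring
      · have hb3 : Nat.ble s.2.2 3 = false := by rw [← Bool.not_eq_true, Nat.ble_eq]; exact h3
        rw [hb3, cond_false] at hg
        exact absurd hg (by simp)

end Pool.Agent.J6H66.SEP
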