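import Pool.Agent.J6H66.SEP.Data
import Pool.Agent.J6H66.SEP.Steps
import Pool.Agent.J6H66.SEP.GammaDefs

/-!
# Evaluation of the recursion
-/

set_option autoImplicit false
open Finset

namespace Pool.Agent.J6H66.SEP

open Pool.Agent.R135.SEP

/-- one of `0, …, 4` -/
def ex5 (p : ℕ → Bool) : Bool := p 0 || (p 1 || (p 2 || (p 3 || p 4)))

theorem ex5_iff (p : ℕ → Bool) : ex5 p = true ↔ ∃ x : Fin 5, p x.1 = true := by
  unfold ex5
  simp only [Bool.or_eq_true]
  constructor
  · rintro (h | h | h | h | h)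
    · exact ⟨0, h⟩
    · exact ⟨1, h⟩
    · exact ⟨2, h⟩
    · exact ⟨3, h⟩
    · exact ⟨4, h⟩
  · rintro ⟨x, h⟩
    fin_cases x
    · exact Or.inl h
    · exact Or.inr (Or.inl h)
    · exact Or.inr (Or.inr (Or.inl h))
    · exact Or.inr (Or.inr (Or.inr (Or.inl h)))
    · exact Or.inr (Or.inr (Or.inr (Or.inr h)))

/-- distance at most `r` -/
def near (L : List (ℕ × ℕ)) : ℕ → ℕ → ℕ → Bool
  | 0, a, b => Nat.beq a b
  | r + 1, a, b => near L r a b || ex5 fun c => adjB L a c && near L r c b

theorem near_reach {L : List (ℕ × ℕ)} (r : ℕ) : ∀ a b : Fin 5, near L r a b = true →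
    (gr 5 L).Reachable a b := by
  induction r with
  | zero =>
    intro a b h
    rw [near, Nat.beq_eq] at h
    rw [Fin.ext h]
  | succ r ih =>
    intro a b h
    rw [near, Bool.or_eq_true, ex5_iff] at h
    rcases h with h | ⟨c, h⟩
    · exact ih a b h
    · rw [Bool.and_eq_true] at h
      have h1 : (gr 5 L).Adj a c := h.1
      exact h1.reachable.trans (ih c b h.2)

theorem near_lip {L : List (ℕ × ℕ)} (r : ℕ) : ∀ a b : Fin 5, near L r a b = true →
    ∀ f, Lip (gr 5 L) f → f a - f b ≤ r ∧ -(r : ℤ) ≤ f a - f b := by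
  induction r with
  | zero =>
    intro a b h f _
    rw [near, Nat.beq_eq] at h
    rw [Fin.ext h]
    simp
  | succ r ih =>
    intro a b h f hf
    rw [near, Bool.or_eq_true, ex5_iff] at h
    rcases h with h | ⟨c, h⟩
    · have := ih a b h f hf
      push_cast
      omega
    · rw [Bool.and_eq_true] at h
      have h1 : (gr 5 L).Adj a c := h.1
      have h2 := hf a c h1
      have h3 := hf c a h1.symm
      have h4 := ih c b h.2 f hf
      push_cast
      omega

/-- the side conditions -/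
def pre (L : List (ℕ × ℕ)) (st : List (ℕ × ℕ × ℕ)) : Bool :=
  L.all (fun e => Nat.blt e.1 5 && Nat.blt e.2 5) && (all5 (fun x => near L 4 0 x) &&
    st.all (fun s => Nat.blt s.1 5 && (Nat.blt s.2.1 5 && (!(Nat.beq s.1 s.2.1) &&
      near L 3 s.1 s.2.1))))

theorem pre_spec {L : List (ℕ × ℕ)} {st : List (ℕ × ℕ × ℕ)} (h : pre L st = true) :
    Bd 5 L ∧ (gr 5 L).Connected ∧ Near L st := by
  unfold pre at h
  rw [Bool.and_eq_true, Bool.and_eq_true, List.all_eq_true, List.all_eq_true, all5_iff] at h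
  obtain ⟨h1, h2, h3⟩ := h
  refine ⟨?_, ?_, ?_⟩
  · intro e he
    have := h1 e he
    rw [Bool.and_eq_true, Nat.blt_eq, Nat.blt_eq] at this
    exact this
  · have h4 : ∀ x : Fin 5, (gr 5 L).Reachable 0 x := fun x => near_reach 4 0 x (h2 x)
    exact ⟨fun a b => (h4 a).symm.trans (h4 b)⟩
  · intro s hs
    have := h3 s hs
    rw [Bool.and_eq_true, Bool.and_eq_true, Bool.and_eq_true, Nat.blt_eq, Nat.blt_eq,
      Bool.not_eq_true', ← Bool.not_eq_true, Nat.beq_eq] at this
    obtain ⟨hu, hv, huv, hn⟩ := this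
    refine ⟨hu, hv, huv, fun f hf => ?_⟩
    have := near_lip 3 ⟨s.1, hu⟩ ⟨s.2.1, hv⟩ hn f hf
    exact_mod_cast this

/-- the leaf function with the concrete data -/
def lf0 : List (ℕ × ℕ) → Option (List ℤ) := leaf classes table codeL

theorem eval {L : List (ℕ × ℕ)} {st : List (ℕ × ℕ × ℕ)} {g : List ℤ} (h : pre L st = true)
    (hg : gam lf0 st L = some g) :
    (gr (nn st) (real L st)).Connected ∧ g.length = 3 + st.length ∧
      hStar (4 + 2 * st.length) (edgePolytope (gr (nn st) (real L st))) = hom g := by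
  obtain ⟨h1, h2, h3⟩ := pre_spec h
  have e := gam_spec (lf := lf0) (by
    intro L g hL hc
    exact leaf_spec classes_ok hL hc) st L g h1 h2 h3 hg
  have hc := real_conn (L := L) (st := st) h2 (fun s hs => by
    obtain ⟨hu, hv, _⟩ := h3 s hs
    exact ⟨hu, hv⟩)
  refine ⟨hc, e.2, ?_⟩
  rw [← e.1, hStar, pow_succ, mul_assoc, ehrhart_eq hc (by rw [nn_eq]; omega)]

/-! ### gamma polynomials -/

theorem gamma_aux (d N : ℕ) (c : ℕ → ℤ)
    (h : ∑ j ∈ Finset.range N, (c j : PowerSeries ℤ) * PowerSeries.X ^ j *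
      (1 + PowerSeries.X) ^ (d - 2 * j) = 0) : ∀ j < N, c j = 0 := by
  intro j
  induction j using Nat.strong_induction_on with
  | _ j ih =>
    intro hj
    have h1 := congrArg (PowerSeries.coeff j) h
    rw [map_sum, map_zero, sum_eq_single j] at h1
    · have h2 : (c j : PowerSeries ℤ) = PowerSeries.C (c j) := by simp
      rw [h2, mul_assoc, PowerSeries.coeff_C_mul, PowerSeries.coeff_X_pow_mul', if_pos le_rfl,
        Nat.sub_self] at h1
      simpa using h1
    · intro i hi hij
      rcases lt_trichotomy i j with h2 | h2 | h2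
      · rw [ih i h2 (mem_range.1 hi)]
        simp
      · exact absurd h2 hij
      · have h3 : (c i : PowerSeries ℤ) = PowerSeries.C (c i) := by simp
        rw [h3, mul_assoc, PowerSeries.coeff_C_mul, PowerSeries.coeff_X_pow_mul',
          if_neg (by omega), mul_zero]
    · intro h2
      exact absurd (mem_range.2 hj) h2

theorem IsGamma.unique {d : ℕ} {h : PowerSeries ℤ} {g g' : Polynomial ℤ} (h1 : IsGamma d h g)
    (h2 : IsGamma d h g') : g = g' := by
  have h3 := h1.2.symm.trans h2.2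
  rw [← sub_eq_zero, ← sum_sub_distrib] at h3
  have h4 := gamma_aux d (d / 2 + 1) (fun j => g.coeff j - g'.coeff j) (by
    rw [← h3]
    apply sum_congr rfl
    intro j _
    push_cast
    ring)
  ext j
  by_cases hj : j < d / 2 + 1
  · have := h4 j hj
    linarith
  · rw [Polynomial.coeff_eq_zero_of_natDegree_lt (by have := h1.1; omega),
      Polynomial.coeff_eq_zero_of_natDegree_lt (by have := h2.1; omega)]

theorem gammaPoly_eq {d : ℕ} {h : PowerSeries ℤ} {g : Polynomial ℤ} (hg : IsGamma d h g) :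
    gammaPoly d h = g := by
  unfold gammaPoly
  have H : ∃ g, IsGamma d h g := ⟨g, hg⟩
  rw [dif_pos H]
  exact H.choose_spec.unique hg

/-- the polynomial with the given coefficients -/
noncomputable def pol (g : List ℤ) : Polynomial ℤ :=
  ∑ j ∈ range g.length, Polynomial.C (g.getD j 0) * Polynomial.X ^ j

theorem pol_coeff (g : List ℤ) (j : ℕ) : (pol g).coeff j = g.getD j 0 := by
  unfold pol
  rw [Polynomial.finsetSum_coeff]
  simp only [Polynomial.coeff_C_mul, Polynomial.coeff_X_pow]
  by_cases hj : j < g.length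
  · rw [sum_eq_single j]
    · simp
    · intro i _ hij
      rw [if_neg (fun e => hij e.symm), mul_zero]
    · intro h
      exact absurd (mem_range.2 hj) h
  · rw [List.getD_eq_default _ _ (by omega)]
    apply sum_eq_zero
    intro i hi
    rw [if_neg (by have := mem_range.1 hi; omega), mul_zero]

theorem hom_eq_sum (g : List ℤ) : hom g = ∑ j ∈ range g.length,
    ((g.getD j 0 : ℤ) : PowerSeries ℤ) * PowerSeries.X ^ j *
      (1 + PowerSeries.X) ^ (2 * (g.length - 1 - j)) := by
  induction g with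
  | nil => simp [hom_nil]
  | cons a g ih =>
    rw [hom_cons, List.length_cons, sum_range_succ', ih, mul_sum, add_comm]
    congr 1
    · apply sum_congr rfl
      intro j hj
      rw [List.getD_cons_succ, show g.length + 1 - 1 - (j + 1) = g.length - 1 - j by omega]
      ring
    · rw [List.getD_cons_zero, Nat.add_sub_cancel, Nat.sub_zero, pow_zero, mul_one, pow_mul]

theorem isGamma_pol {N : ℕ} {g : List ℤ} (hg : g.length = N + 1) :
    IsGamma (2 * N) (hom g) (pol g) := by
  constructor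
  · rw [Polynomial.natDegree_le_iff_coeff_eq_zero]
    intro j hj
    rw [pol_coeff, List.getD_eq_default _ _ (by omega)]
  · rw [hom_eq_sum, hg, show 2 * N / 2 + 1 = N + 1 by omega]
    apply sum_congr rfl
    intro j _
    rw [pol_coeff, show 2 * (N + 1 - 1 - j) = 2 * N - 2 * j by omega]

theorem eval_gamma {L : List (ℕ × ℕ)} {st : List (ℕ × ℕ × ℕ)} {g : List ℤ} (h : pre L st = true)
    (hg : gam lf0 st L = some g) :
    (gr (nn st) (real L st)).Connected ∧
      IsGamma (4 + 2 * st.length)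
        (hStar (4 + 2 * st.length) (edgePolytope (gr (nn st) (real L st)))) (pol g) := by
  obtain ⟨h1, h2, h3⟩ := eval h hg
  refine ⟨h1, ?_⟩
  rw [h3]
  have := isGamma_pol (N := 2 + st.length) (g := g) (by rw [h2]; ring)
  rwa [show 2 * (2 + st.length) = 4 + 2 * st.length by ring] at this

theorem ofList_eq (n : ℕ) (L : List (ℕ × ℕ)) : ofList n L = gr n L := by
  ext a b
  rw [gr_adj, adjB_iff]
  change a ≠ b ∧ _ ↔ _
  exact and_congr ⟨fun h e => h (Fin.ext e), fun h e => h (congrArg Fin.val e)⟩ Iff.rfl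

theorem transfer {n m : ℕ} (h : n = m) {L M : List (ℕ × ℕ)} (hL : L = M) {d : ℕ}
    {p : Polynomial ℤ} (h1 : (gr n L).Connected ∧ IsGamma d (hStar d (edgePolytope (gr n L))) p) :
    (gr m M).Connected ∧ IsGamma d (hStar d (edgePolytope (gr m M))) p := by
  subst h
  subst hL
  exact h1

/-! ### deleting edges -/

/-- delete an entry of the edge list -/
def del (L : List (ℕ × ℕ)) (a b : ℕ) : List (ℕ × ℕ) :=
  L.filter (fun p => !(Nat.beq p.1 a && Nat.beq p.2 b))

theorem gr_del {n : ℕ} {L : List (ℕ × ℕ)} {a b : Fin n} (h : ((b : ℕ), (a : ℕ)) ∉ L) :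
    (gr n L).deleteEdges {s(a, b)} = gr n (del L a b) := by
  ext x y
  rw [SimpleGraph.deleteEdges_adj, gr_adj, gr_adj, adjB_iff, adjB_iff]
  unfold del
  simp only [List.mem_filter, Bool.not_eq_true', ← Bool.not_eq_true, Bool.and_eq_true, Nat.beq_eq,
    Set.mem_singleton_iff, Sym2.eq_iff, Fin.ext_iff]
  constructor
  · rintro ⟨⟨h1, h2 | h2⟩, h3⟩
    · refine ⟨h1, Or.inl ⟨h2, ?_⟩⟩
      rintro ⟨h4, h5⟩
      exact h3 (Or.inl ⟨h4, h5⟩)
    · refine ⟨h1, Or.inr ⟨h2, ?_⟩⟩
      rintro ⟨h4, h5⟩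
      exact h3 (Or.inr ⟨h5, h4⟩)
  · rintro ⟨h1, ⟨h2, h3⟩ | ⟨h2, h3⟩⟩
    · refine ⟨⟨h1, Or.inl h2⟩, ?_⟩
      rintro (⟨h4, h5⟩ | ⟨h4, h5⟩)
      · exact h3 ⟨h4, h5⟩
      · rw [h4, h5] at h2
        exact h h2
    · refine ⟨⟨h1, Or.inr h2⟩, ?_⟩
      rintro (⟨h4, h5⟩ | ⟨h4, h5⟩)
      · rw [h4, h5] at h2
        exact h h2
      · exact h3 ⟨h5, h4⟩

/-! ### Hamiltonian graphs are two-connected -/

theorem ham_two {n : ℕ} (G : SimpleGraph (Fin n)) (hn : 3 ≤ n) (c : ℕ → Fin n)
    (hadj : ∀ i, G.Adj (c i) (c (i + 1))) (hper : ∀ i, c (i + n) = c i)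
    (hinj : ∀ i < n, ∀ j < n, c i = c j → i = j) : TwoConnected G := by
  have hsurj : ∀ x, ∃ i < n, c i = x := by
    have h1 : Function.Injective (fun i : Fin n => c i) := by
      intro i j hij
      exact Fin.ext (hinj i i.2 j j.2 hij)
    intro x
    obtain ⟨i, hi⟩ := (Finite.injective_iff_surjective.1 h1) x
    exact ⟨i, i.2, hi⟩
  have hmod : ∀ i, c i = c (i % n) := by
    intro i
    have h1 : ∀ q r, c (r + n * q) = c r := by
      intro q
      induction q with
      | zero => intro r; simp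
      | succ q ih => intro r; rw [Nat.mul_succ, ← add_assoc, hper, ih]
    conv_lhs => rw [← Nat.mod_add_div i n]
    rw [h1]
  refine ⟨hn, ?_, ?_⟩
  · have hr : ∀ j, G.Reachable (c 0) (c j) := by
      intro j
      induction j with
      | zero => exact SimpleGraph.Reachable.refl _
      | succ j ih => exact ih.trans (hadj j).reachable
    have : Nonempty (Fin n) := ⟨c 0⟩
    refine ⟨fun a b => ?_⟩
    obtain ⟨i, _, rfl⟩ := hsurj a
    obtain ⟨j, _, rfl⟩ := hsurj b
    exact (hr i).symm.trans (hr j)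
  · intro v
    obtain ⟨k, hk, rfl⟩ := hsurj v
    have hne : ∀ j, j < n - 1 → c (k + 1 + j) ∈ ({c k}ᶜ : Set (Fin n)) := by
      intro j hj he
      rw [Set.mem_singleton_iff] at he
      rw [hmod (k + 1 + j)] at he
      have h1 := hinj _ (Nat.mod_lt _ (by omega)) k hk he
      rcases lt_or_ge (k + 1 + j) n with h2 | h2
      · rw [Nat.mod_eq_of_lt h2] at h1
        omega
      · rw [Nat.mod_eq_sub_mod h2, Nat.mod_eq_of_lt (by omega)] at h1
        omega
    have hr : ∀ j (hj : j < n - 1), (G.induce {c k}ᶜ).Reachable ⟨c (k + 1 + 0), hne 0 (by omega)⟩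
        ⟨c (k + 1 + j), hne j hj⟩ := by
      intro j
      induction j with
      | zero => intro _; exact SimpleGraph.Reachable.refl _
      | succ j ih =>
        intro hj
        refine (ih (by omega)).trans (SimpleGraph.Adj.reachable ?_)
        rw [SimpleGraph.induce_adj]
        exact hadj (k + 1 + j)
    have hall : ∀ x : ({c k}ᶜ : Set (Fin n)), (G.induce {c k}ᶜ).Reachable
        ⟨c (k + 1 + 0), hne 0 (by omega)⟩ x := by
      rintro ⟨x, hx⟩
      obtain ⟨i, hi, rfl⟩ := hsurj x
      have hik : i ≠ k := by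
        intro e
        apply hx
        rw [e]
        exact Set.mem_singleton _
      rcases lt_or_ge k i with h1 | h1
      · have := hr (i - k - 1) (by omega)
        simpa only [show k + 1 + (i - k - 1) = i by omega] using this
      · have := hr (i + n - k - 1) (by omega)
        simpa only [show k + 1 + (i + n - k - 1) = i + n by omega, hper] using this
    have : Nonempty ({c k}ᶜ : Set (Fin n)) := ⟨⟨c (k + 1 + 0), hne 0 (by omega)⟩⟩
    exact ⟨fun a b => (hall a).symm.trans (hall b)⟩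

end Pool.Agent.J6H66.SEP
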