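import Pool.Agent.R135.SEPGen

/-!
# A checkable description of the gauge of a small graph
-/

set_option autoImplicit false
open Finset

namespace Pool.Agent.J6H66.SEP

open Pool.Agent.R135.SEP

/-- A simplicial cone: a potential `l` of the perturbed problem, the arcs on which it is tight,
the corresponding vertex `f` of the dual polytope, and the coordinate functionals `A`. -/
structure Cell (m : ℕ) where
  l : Fin m → ℤ
  f : Fin m → ℤ
  arcs : Finset (Fin m × Fin m)
  A : Fin m × Fin m → Fin m → ℤ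

/-- the certificate conditions -/
structure Cert {m : ℕ} (B : SimpleGraph (Fin m)) (ω : Fin m → Fin m → ℤ) (w : Fin m → ℤ) {k : ℕ}
    (c : Fin k → Cell m) : Prop where
  hw : bal w
  hk : 0 < k
  le : ∀ i a b, B.Adj a b → (c i).l a - (c i).l b ≤ ω a b
  tight : ∀ i a b, B.Adj a b → (c i).l a - (c i).l b = ω a b → (a, b) ∈ (c i).arcs
  arc : ∀ i, ∀ t ∈ (c i).arcs, (c i).l t.1 - (c i).l t.2 = ω t.1 t.2 ∧
    (c i).f t.1 - (c i).f t.2 = 1 ∧ B.Adj t.1 t.2
  lip : ∀ i, Lip B (c i).f
  dual : ∀ i, ∀ t ∈ (c i).arcs, ∀ t' ∈ (c i).arcs,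
    (c i).A t t'.1 - (c i).A t t'.2 = if t = t' then 1 else 0
  span : ∀ i, ∀ x, bal x → x = ∑ t ∈ (c i).arcs, (pr ((c i).A t) x) • ev t.1 t.2
  gen : ∀ i, ∀ t ∈ (c i).arcs, pr ((c i).A t) w ≠ 0
  piv : ∀ i, ∀ t ∈ (c i).arcs, ∃ (j : Fin k) (s κ : ℤ), 0 < s ∧
    ∀ a, (c j).l a = (c i).l a - s * (c i).A t a + κ
  uniq : ∀ i j, (c j).arcs ⊆ (c i).arcs → i = j
  card : ∀ i, (c i).arcs.card = m - 1

namespace Cert

variable {m : ℕ} {B : SimpleGraph (Fin m)} {ω : Fin m → Fin m → ℤ} {w : Fin m → ℤ} {k : ℕ}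
  {c : Fin k → Cell m}

theorem pr_sum (f : Fin m → ℤ) {ι : Type} (s : Finset ι) (a : ι → ℤ) (v : ι → Fin m → ℤ) :
    pr f (∑ t ∈ s, a t • v t) = ∑ t ∈ s, a t * pr f (v t) := by
  classical
  induction s using Finset.induction_on with
  | empty => simp [pr]
  | insert x s hx ih => rw [sum_insert hx, sum_insert hx, pr_add_right, ih, pr_smul_right]

theorem pr_decomp (h : Cert B ω w c) (i : Fin k) (g : Fin m → ℤ) {x : Fin m → ℤ} (hx : bal x) :
    pr g x = ∑ t ∈ (c i).arcs, pr ((c i).A t) x * (g t.1 - g t.2) := by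
  conv_lhs => rw [h.span i x hx]
  rw [pr_sum]
  apply sum_congr rfl
  intro t _
  rw [pr_ev]

/-- the open cone -/
def pos (c : Fin k → Cell m) (i : Fin k) (x : Fin m → ℤ) : Prop :=
  ∀ t ∈ (c i).arcs, 0 < pr ((c i).A t) x

theorem exists_pos (h : Cert B ω w c) {x : Fin m → ℤ} (hx : bal x)
    (hne : ∀ i, ∀ t ∈ (c i).arcs, pr ((c i).A t) x ≠ 0) : ∃ i, pos c i x := by
  have : Nonempty (Fin k) := ⟨⟨0, h.hk⟩⟩
  obtain ⟨i, _, hi⟩ := exists_max_image (univ : Finset (Fin k)) (fun i => pr (c i).l x)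
    univ_nonempty
  refine ⟨i, fun t ht => ?_⟩
  by_contra hneg
  have h1 := hne i t ht
  obtain ⟨j, s, κ, hs, hj⟩ := h.piv i t ht
  have h2 := hi j (mem_univ _)
  have h3 : pr (c j).l x = pr (c i).l x - s * pr ((c i).A t) x := by
    have : (c j).l = fun a => (c i).l a - s * (c i).A t a + κ := funext hj
    rw [this]
    have h4 := pr_const κ x hx
    unfold pr at h4 ⊢
    have : ∑ a, ((c i).l a - s * (c i).A t a + κ) * x a =
        ∑ a, (c i).l a * x a - s * ∑ a, (c i).A t a * x a + ∑ a, κ * x a := by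
      rw [mul_sum, ← sum_sub_distrib, ← sum_add_distrib]
      apply sum_congr rfl
      intro a _; ring
    rw [this, h4]
    ring
  have h5 : pr ((c i).A t) x < 0 := by omega
  have h6 : 0 < -(s * pr ((c i).A t) x) := by nlinarith
  linarith

theorem pos_le (h : Cert B ω w c) {x : Fin m → ℤ} (hx : bal x) {i j : Fin k}
    (hj : pos c j x) : pr (c i).l x ≤ pr (c j).l x := by
  rw [h.pr_decomp j (c i).l hx, h.pr_decomp j (c j).l hx]
  apply sum_le_sum
  intro t ht
  obtain ⟨h1, _, h2⟩ := h.arc j t ht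
  rw [h1]
  exact mul_le_mul_of_nonneg_left (h.le i _ _ h2) (hj t ht).le

theorem pos_unique (h : Cert B ω w c) {x : Fin m → ℤ} (hx : bal x) {i j : Fin k}
    (hi : pos c i x) (hj : pos c j x) : i = j := by
  apply h.uniq
  have h1 : pr (c i).l x = pr (c j).l x := le_antisymm (h.pos_le hx hj) (h.pos_le hx hi)
  rw [h.pr_decomp j (c i).l hx, h.pr_decomp j (c j).l hx] at h1
  have h2 : ∑ t ∈ (c j).arcs, pr ((c j).A t) x *
      (((c j).l t.1 - (c j).l t.2) - ((c i).l t.1 - (c i).l t.2)) = 0 := by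
    simp only [mul_sub] at h1 ⊢
    simp only [sum_sub_distrib] at h1 ⊢
    linarith
  have h3 : ∀ t ∈ (c j).arcs, 0 ≤ pr ((c j).A t) x *
      (((c j).l t.1 - (c j).l t.2) - ((c i).l t.1 - (c i).l t.2)) := by
    intro t ht
    obtain ⟨h4, _, h5⟩ := h.arc j t ht
    apply mul_nonneg (hj t ht).le
    rw [h4]
    have := h.le i _ _ h5
    linarith
  intro t ht
  have h4 := (sum_eq_zero_iff_of_nonneg h3).1 h2 t ht
  have h5 := hj t ht
  have h6 : ((c j).l t.1 - (c j).l t.2) - ((c i).l t.1 - (c i).l t.2) = 0 := by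
    rcases mul_eq_zero.1 h4 with h7 | h7
    · omega
    · exact h7
  obtain ⟨h7, _, h8⟩ := h.arc j t ht
  have := h.tight i t.1 t.2 h8 (by rw [← h7]; linarith)
  simpa using this

theorem series (h : Cert B ω w c) (hB : B.Connected) :
    (1 - PowerSeries.X) ^ (m - 1) * gf (nu B) {x | bal x} =
      ∑ i, (PowerSeries.X : PowerSeries ℤ) ^
        ((c i).arcs.filter (fun t => pr ((c i).A t) w < 0)).card := by
  classical
  -- a large constant
  obtain ⟨K, hK0, hK⟩ : ∃ K : ℤ, 0 < K ∧ ∀ i, ∀ t ∈ (c i).arcs, |pr ((c i).A t) w| < K := by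
    refine ⟨1 + ∑ i, ∑ t ∈ (c i).arcs, |pr ((c i).A t) w|, ?_, ?_⟩
    · have : 0 ≤ ∑ i, ∑ t ∈ (c i).arcs, |pr ((c i).A t) w| :=
        sum_nonneg (fun i _ => sum_nonneg (fun t _ => abs_nonneg _))
      omega
    · intro i t ht
      have h1 : |pr ((c i).A t) w| ≤ ∑ t ∈ (c i).arcs, |pr ((c i).A t) w| :=
        single_le_sum (f := fun t => |pr ((c i).A t) w|) (fun t _ => abs_nonneg _) ht
      have h2 : ∑ t ∈ (c i).arcs, |pr ((c i).A t) w| ≤
          ∑ i, ∑ t ∈ (c i).arcs, |pr ((c i).A t) w| :=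
        single_le_sum (f := fun i => ∑ t ∈ (c i).arcs, |pr ((c i).A t) w|)
          (fun i _ => sum_nonneg (fun t _ => abs_nonneg _)) (mem_univ i)
      omega
  -- the perturbed vector
  have hpr : ∀ (g x : Fin m → ℤ), pr g (K • x + w) = K * pr g x + pr g w := by
    intro g x
    rw [pr_add_right, pr_smul_right]
  have hsign : ∀ i, ∀ t ∈ (c i).arcs, ∀ x : Fin m → ℤ,
      (0 < K * pr ((c i).A t) x + pr ((c i).A t) w ↔
        (0 ≤ pr ((c i).A t) x ∧ (pr ((c i).A t) w < 0 → 1 ≤ pr ((c i).A t) x))) := by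
    intro i t ht x
    have h1 := hK i t ht
    rw [abs_lt] at h1
    have h2 := h.gen i t ht
    constructor
    · intro h3
      constructor
      · by_contra hlt
        have : K * pr ((c i).A t) x ≤ K * (-1) :=
          mul_le_mul_of_nonneg_left (by omega) hK0.le
        linarith
      · intro h4
        by_contra hlt
        have : K * pr ((c i).A t) x ≤ K * 0 :=
          mul_le_mul_of_nonneg_left (by omega) hK0.le
        linarith
    · rintro ⟨h3, h4⟩
      by_cases h5 : pr ((c i).A t) w < 0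
      · have : K * 1 ≤ K * pr ((c i).A t) x := mul_le_mul_of_nonneg_left (h4 h5) hK0.le
        linarith
      · have : 0 ≤ K * pr ((c i).A t) x := mul_nonneg hK0.le h3
        omega
  set τ : Fin k → Finset (Fin m → ℤ) := fun i => (c i).arcs.image (fun t => ev t.1 t.2) with hτ
  set N : Fin k → Finset (Fin m → ℤ) := fun i =>
    ((c i).arcs.filter (fun t => pr ((c i).A t) w < 0)).image (fun t => ev t.1 t.2) with hN
  have evinj : ∀ i, ∀ t ∈ (c i).arcs, ∀ t' ∈ (c i).arcs, ev t.1 t.2 = ev t'.1 t'.2 → t = t' := by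
    intro i t ht t' ht' he
    have h1 := h.dual i t ht t ht
    have h2 := h.dual i t ht t' ht'
    have h3 := congrArg (pr ((c i).A t)) he
    rw [pr_ev, pr_ev, h1, h2, if_pos rfl] at h3
    by_contra hne
    rw [if_neg hne] at h3
    omega
  have hNτ : ∀ i, N i ⊆ τ i := by
    intro i
    simp only [hN, hτ]
    exact image_subset_image (filter_subset _ _)
  have cardτ : ∀ i, (τ i).card = m - 1 := by
    intro i
    simp only [hτ]
    rw [card_image_of_injOn, h.card i]
    intro t ht t' ht' he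
    exact evinj i t ht t' ht' he
  have cardN : ∀ i, (N i).card = ((c i).arcs.filter (fun t => pr ((c i).A t) w < 0)).card := by
    intro i
    simp only [hN]
    rw [card_image_of_injOn]
    intro t ht t' ht' he
    exact evinj i t (mem_filter.1 ht).1 t' (mem_filter.1 ht').1 he
  have sumτ : ∀ i (C : (Fin m → ℤ) → ℤ), ∑ v ∈ τ i, C v • v =
      ∑ t ∈ (c i).arcs, C (ev t.1 t.2) • ev t.1 t.2 := by
    intro i C
    simp only [hτ]
    rw [sum_image]
    intro t ht t' ht' he
    exact evinj i t ht t' ht' he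
  have sumτ' : ∀ i (C : (Fin m → ℤ) → ℤ), ∑ v ∈ τ i, C v =
      ∑ t ∈ (c i).arcs, C (ev t.1 t.2) := by
    intro i C
    simp only [hτ]
    rw [sum_image]
    intro t ht t' ht' he
    exact evinj i t ht t' ht' he
  have coord : ∀ i (C : (Fin m → ℤ) → ℤ), ∀ t ∈ (c i).arcs,
      pr ((c i).A t) (∑ v ∈ τ i, C v • v) = C (ev t.1 t.2) := by
    intro i C t ht
    rw [sumτ, pr_sum]
    have : ∀ t' ∈ (c i).arcs, C (ev t'.1 t'.2) * pr ((c i).A t) (ev t'.1 t'.2) =
        if t = t' then C (ev t'.1 t'.2) else 0 := by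
      intro t' ht'
      rw [pr_ev, h.dual i t ht t' ht']
      split_ifs <;> simp
    rw [sum_congr rfl this, sum_ite_eq, if_pos ht]
  have balτ : ∀ i (C : (Fin m → ℤ) → ℤ), bal (∑ v ∈ τ i, C v • v) := by
    intro i C
    rw [sumτ]
    have : ∀ s : Finset (Fin m × Fin m), bal (∑ t ∈ s, C (ev t.1 t.2) • ev t.1 t.2) := by
      intro s
      induction s using Finset.induction_on with
      | empty => exact bal_zero
      | insert a s ha ih =>
        rw [sum_insert ha]
        exact ((bal_ev _ _).smul _).add ih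
    exact this _
  have hmem : ∀ i x, bal x → (x ∈ piece (τ i) (N i) ↔ pos c i (K • x + w)) := by
    intro i x hx
    constructor
    · rintro ⟨C, hC, rfl⟩ t ht
      rw [hpr, hsign i t ht, coord i (fun v => (C v : ℤ)) t ht]
      refine ⟨Int.natCast_nonneg _, fun hneg => ?_⟩
      have := hC (ev t.1 t.2) (by
        simp only [hN]
        exact mem_image.2 ⟨t, mem_filter.2 ⟨ht, hneg⟩, rfl⟩)
      exact_mod_cast this
    · intro hp
      have hc0 : ∀ t ∈ (c i).arcs, 0 ≤ pr ((c i).A t) x ∧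
          (pr ((c i).A t) w < 0 → 1 ≤ pr ((c i).A t) x) := by
        intro t ht
        have := hp t ht
        rw [hpr] at this
        exact (hsign i t ht x).1 this
      refine ⟨fun v => if hv : ∃ t ∈ (c i).arcs, ev t.1 t.2 = v then
        (pr ((c i).A hv.choose) x).toNat else 0, ?_, ?_⟩
      · intro v hv
        simp only [hN] at hv
        obtain ⟨t, ht, rfl⟩ := mem_image.1 hv
        obtain ⟨ht1, ht2⟩ := mem_filter.1 ht
        have hex : ∃ t' ∈ (c i).arcs, ev t'.1 t'.2 = ev t.1 t.2 := ⟨t, ht1, rfl⟩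
        beta_reduce
        rw [dif_pos hex]
        have e : hex.choose = t := evinj i _ hex.choose_spec.1 _ ht1 hex.choose_spec.2
        rw [e]
        have := (hc0 t ht1).2 ht2
        omega
      · rw [sumτ i]
        conv_rhs => rw [h.span i x hx]
        apply sum_congr rfl
        intro t ht
        have hex : ∃ t' ∈ (c i).arcs, ev t'.1 t'.2 = ev t.1 t.2 := ⟨t, ht, rfl⟩
        beta_reduce
        rw [dif_pos hex]
        have e : hex.choose = t := evinj i _ hex.choose_spec.1 _ ht hex.choose_spec.2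
        rw [e, Int.toNat_of_nonneg (hc0 t ht).1]
  have hbalK : ∀ x : Fin m → ℤ, bal x → bal (K • x + w) := fun x hx => (hx.smul K).add h.hw
  have e1 := gf_biUnion (ν := nu B) (univ : Finset (Fin k)) (fun i => piece (τ i) (N i))
    (S := {x | bal x}) (nu_LF hB) (by
      intro x
      constructor
      · intro hx
        obtain ⟨i, hi⟩ := h.exists_pos (hbalK x hx) (by
          intro i t ht h0
          rw [hpr] at h0
          have h1 := hK i t ht
          have h2 := h.gen i t ht
          rw [abs_lt] at h1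
          have h3 : K * pr ((c i).A t) x = - pr ((c i).A t) w := by linarith
          rcases lt_trichotomy (pr ((c i).A t) x) 0 with h4 | h4 | h4
          · have : K * pr ((c i).A t) x ≤ K * (-1) :=
              mul_le_mul_of_nonneg_left (by omega) hK0.le
            linarith
          · rw [h4, mul_zero] at h3
            omega
          · have : K * 1 ≤ K * pr ((c i).A t) x :=
              mul_le_mul_of_nonneg_left (by omega) hK0.le
            linarith)
        exact ⟨i, mem_univ _, (hmem i x hx).2 hi⟩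
      · rintro ⟨i, _, ⟨C, _, rfl⟩⟩
        exact balτ i (fun v => (C v : ℤ))) (by
      intro i _ j _ x hi hj
      have hx : bal x := by
        obtain ⟨C, _, rfl⟩ := hi
        exact balτ i (fun v => (C v : ℤ))
      exact h.pos_unique (hbalK x hx) ((hmem i x hx).1 hi) ((hmem j x hx).1 hj))
  rw [e1, mul_sum]
  apply sum_congr rfl
  intro i _
  have e2 := gf_piece (nu B) (τ i) (N i) (hNτ i) (by
    intro C C' he v hv
    simp only [hτ] at hv
    obtain ⟨t, ht, rfl⟩ := mem_image.1 hv
    have h1 := coord i (fun v => (C v : ℤ)) t ht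
    have h2 := coord i (fun v => (C' v : ℤ)) t ht
    rw [he, h2] at h1
    exact_mod_cast h1.symm) (by
    intro C
    apply le_antisymm
    · obtain ⟨g, hg, hg2⟩ := nu_attained hB (balτ i (fun v => (C v : ℤ)))
      rw [← hg2, sumτ i (fun v => (C v : ℤ)), sumτ' i (fun v => (C v : ℤ)), pr_sum]
      apply sum_le_sum
      intro t ht
      rw [pr_ev]
      obtain ⟨_, _, h3⟩ := h.arc i t ht
      have := hg _ _ h3
      have h5 : (0 : ℤ) ≤ (C (ev t.1 t.2) : ℤ) := Int.natCast_nonneg _
      nlinarith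
    · have h1 := le_nu hB (balτ i (fun v => (C v : ℤ))) (h.lip i)
      have h2 : pr (c i).f (∑ v ∈ τ i, (C v : ℤ) • v) = ∑ v ∈ τ i, (C v : ℤ) := by
        rw [sumτ i (fun v => (C v : ℤ)), sumτ' i (fun v => (C v : ℤ)), pr_sum]
        apply sum_congr rfl
        intro t ht
        rw [pr_ev, (h.arc i t ht).2.1, mul_one]
      rw [h2] at h1
      exact h1)
  rw [cardτ i, cardN i] at e2
  exact e2

end Cert

end Pool.Agent.J6H66.SEP
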